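import Pool.Agent.Lib.MP_7157e1_co.FoJoin

/-! Simplex sections with two classes of vertices. -/

namespace Pool.Agent.FlagOrb

open Equiv Set

lemma armC_nc {G : Type} [Group G] {q : ℕ → G} {m : ℕ} (sq : ∀ i ≤ m, q i * q i = 1)
    (adj : ∀ i < m, ¬ Commute (q i) (q (i + 1))) (br : ∀ i < m, (q i * q (i + 1)) ^ 3 = 1)
    (far : ∀ i j, i + 2 ≤ j → j ≤ m → Commute (q i) (q j)) {i j : ℕ} (hij : i < j) (hj : j ≤ m) :
    ¬ Commute (armC q i) (armC q j) := by
  have c1 : ∀ i j, i + 2 ≤ j → j ≤ m → Commute (q j) (armC q i) := fun i j h1 h2 =>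
    armC_comm i fun k hk => (far _ _ (by omega) h2).symm
  have cj : ∀ a b c : G, a * a = 1 → Commute (a * b * a) (a * c * a) → Commute b c := by
    intro a b c ha h
    have := (Commute.conj_iff (a := b) (b := c) a).1
    rw [inv_eq_of_sq ha] at this
    exact this h
  have key : ∀ i < m, armC q i * armC q i = 1 ∧ ¬ Commute (armC q i) (q (i + 1)) ∧
      armC q i * q (i + 1) * armC q i = q (i + 1) * armC q i * q (i + 1) := by
    intro i
    induction i with
    | zero => exact fun h => ⟨sq 0 h.le, adj 0 h, braid_of_cube (sq 0 h.le) (sq 1 h) (br 0 h)⟩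
    | succ i ih =>
      intro h
      obtain ⟨k1, -, k3⟩ := ih (by omega)
      have e : armC q (i + 1) = armC q i * q (i + 1) * armC q i := k3.symm
      have cm := (c1 i (i + 2) le_rfl h).eq
      have b2 := braid_of_cube (sq _ h.le) (sq _ h) (br _ h)
      have s1 := sq _ h.le
      have n2 := adj _ h
      change q (i + 1) * q (i + 2) * q (i + 1) = q (i + 2) * q (i + 1) * q (i + 2) at b2
      change ¬ Commute (q (i + 1)) (q (i + 2)) at n2
      change _ ∧ ¬ Commute _ (q (i + 2)) ∧ _ * q (i + 2) * _ = q (i + 2) * _ * q (i + 2)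
      rw [e]
      generalize q (i + 1) = b at *
      generalize q (i + 2) = c at *
      generalize armC q i = a at *
      have e2 : c = a * c * a := by rw [← cm, mul_assoc, k1, mul_one]
      have aa : ∀ z, a * (a * z) = z := fun z => by rw [← mul_assoc, k1, one_mul]
      refine ⟨?_, fun hc => n2 (cj a _ _ k1 (e2 ▸ hc)), ?_⟩
      · simp only [mul_assoc, aa]
        rw [← mul_assoc b, s1, one_mul, k1]
      · calc a * b * a * c * (a * b * a) = a * b * (a * c * a) * b * a := by simp only [mul_assoc]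
          _ = a * (b * c * b) * a := by rw [← e2]; simp only [mul_assoc]
          _ = (a * c * a) * (a * b * a) * (a * c * a) := by rw [b2]; simp only [mul_assoc, aa]
          _ = c * (a * b * a) * c := by rw [← e2]
  induction j, hij using Nat.le_induction with
  | base =>
    obtain ⟨k1, k2, k3⟩ := key i hj
    intro hc
    change Commute _ (q (i + 1) * armC q i * q (i + 1)) at hc
    rw [← k3] at hc
    refine k2 (cj _ _ _ k1 ?_)
    rwa [k1, one_mul]
  | succ j hij ih =>
    intro hc
    refine ih (by omega) (cj (q (j + 1)) _ _ (sq _ hj) ?_)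
    rwa [(c1 i (j + 1) (by omega) hj).eq, mul_assoc, sq _ hj, mul_one]

namespace PS

variable {F L : Type} [Lattice L] {n : ℕ} {r : ℕ → Perm F} {φ : ℕ → F → L} (h : PS n r φ)
include h

lemma rf_face {e : ℕ} (ht : ∀ y, Wl r y e) (he : e < n) {x y : F} (hr : Rch r (Ici (e + 1)) x y)
    (hq : rf r x e = rf r y e) : φ (e + 2) x = φ (e + 2) y := by
  have h1 := Aut.rch (rf_aut (r := r) x e) hr
  rw [rf_app (ht _), hq, rf_app (ht _)] at h1
  have hI : ∀ c ∈ Ici (e + 1), e + 1 ≠ c + 1 := fun c hc => by have := mem_Ici.1 hc; omega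
  rw [← h.join e _ he, ← h.join e _ he, h.sameR hr hI, h.sameR h1 hI]

lemma up_le {u i j : ℕ} (hi : u + i ≤ n) (hj : u + j ≤ n) (y : F) :
    φ (u + 1) (up r u i y) ≤ φ (u + j + 1) y ↔ i ≤ j := by
  have hr : Rch r (Ico u (u + i)) y (up r u i y) := ⟨_, up_mem r u i, rfl⟩
  constructor
  · intro hle
    by_contra hn
    obtain ⟨i, rfl⟩ : ∃ k, i = k + 1 := ⟨i - 1, by omega⟩
    have h1 := h.up_meet i (by omega) y (u := u)
    rw [inf_eq_left.2 (hle.trans (h.mono (by omega) (by omega) _)),
      ← h.sameR hr (i := u) fun c hc => by have := hc.1; omega] at h1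
    exact (h.lt u _ (by omega)).not_ge h1
  · intro hij
    rw [← h.sameR hr (i := u + j + 1) fun c hc => by have := hc.2; omega]
    exact h.mono (by omega) (by omega) _

/-- the moves permute the vertices of a simplex section -/
lemma simp_up {e N : ℕ} (ht : ∀ y, Wl r y e) (hN : e + 1 + N = n) {x0 : F}
    (T : Finset (Perm F)) (hT : T.card ≤ N + 1)
    (hall : ∀ y, Rch r (Ico (e + 1) n) x0 y → rf r y e ∈ T) (k : ℕ) : k ≤ N → ∀ y,
    Rch r (Ico (e + 1) n) x0 y → ∀ i ≤ N, rf r (up r (e + 1) i (up r (e + 1) k y)) e =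
      rf r (up r (e + 1) (if i = 0 then k else if i ≤ k then i - 1 else i) y) e := by
  classical
  have um : ∀ i ≤ N, up r (e + 1) i ∈ W r (Ico (e + 1) n) := fun i hi =>
    W_mono (Ico_subset_Ico_right (by omega)) (up_mem r _ i)
  have s4 : ∀ y, Rch r (Ico (e + 1) n) x0 y → ∀ i j, j + 1 < i → i ≤ N →
      rf r (up r (e + 1) i (r (e + 1 + j) y)) e = rf r (up r (e + 1) i y) e := by
    intro y hy i j hji hi
    have hy' : Rch r (Ico (e + 1) n) y (r (e + 1 + j) y) :=
      (Rch.refl y).next ⟨by omega, by omega⟩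
    have sj := Finset.surjOn_of_injOn_of_card_le (s := Finset.range (N + 1)) (t := T)
      (fun i => rf r (up r (e + 1) i y) e)
      (fun i hi => hall _ (hy.trans ⟨_, um i (by simpa [Nat.lt_succ_iff] using hi), rfl⟩))
      (fun i hi j hj he => by
        have hi' : i < N + 1 := by simpa using hi
        have hj' : j < N + 1 := by simpa using hj
        rcases lt_trichotomy i j with hl | hl | hl
        · exact absurd he (h.rf_dist ht hl (by omega) y)
        · exact hl
        · exact absurd he.symm (h.rf_dist ht hl (by omega) y)) (by simpa using hT)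
    have r1 : Rch r (Ico (e + 1) n) y (up r (e + 1) i (r (e + 1 + j) y)) :=
      hy'.trans ⟨_, um i hi, rfl⟩
    obtain ⟨k, hk, he⟩ := sj (hall _ (hy.trans r1))
    have hk' : k < N + 1 := by simpa using hk
    have r2 : Rch r (Ico (e + 1) n) y (up r (e + 1) k y) := ⟨_, um k (by omega), rfl⟩
    have fe := h.rf_face ht (by omega) ((r2.symm.trans r1).mono Ico_subset_Ici_self) he
    have a1 := (h.up_le (u := e + 1) (i := i) (j := i) (by omega) (by omega) (r (e + 1 + j) y)).2
      le_rfl
    have a2 := (h.up_le (u := e + 1) (i := i) (j := i - 1) (by omega) (by omega)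
      (r (e + 1 + j) y)).1
    rw [h.same _ _ y (by omega), ← fe, h.up_le (by omega) (by omega)] at a1 a2
    obtain rfl : k = i := by omega
    exact he.symm
  induction k with
  | zero =>
    intro _ y _ i _
    rw [show (if i = 0 then 0 else if i ≤ 0 then i - 1 else i) = i by split_ifs <;> omega]
    rfl
  | succ k ih =>
    intro hk y hy i hi
    refine (ih (by omega) (r (e + 1 + k) y) (hy.next ⟨by omega, by omega⟩) i hi).trans ?_
    by_cases e0 : i = 0
    · rw [if_pos e0, if_pos e0]; rfl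
    rw [if_neg e0, if_neg e0]
    by_cases e1 : i ≤ k
    · rw [if_pos e1, if_pos (by omega)]
      have cm : Commute (r (e + 1 + k)) (up r (e + 1) (i - 1)) :=
        W_comm (fun c hc => (h.comm _ _ (by have := hc.2; omega)).symm) (up_mem r _ _)
      rw [← Perm.mul_apply, ← cm.eq, Perm.mul_apply]
      exact h.rf_step (ht _) (by omega) (by omega)
    rw [if_neg e1]
    by_cases e2 : i = k + 1
    · subst e2
      rw [if_pos le_rfl]
      change rf r (up r (e + 1) k (r (e + 1 + k) (r (e + 1 + k) y))) e = _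
      rw [h.rr]; rfl
    · rw [if_neg (by omega)]
      exact s4 y hy i k (by omega) hi

/-- a cyclic shift of the vertices of the section is not induced by an automorphism -/
lemma simp_key {e N p : ℕ} (ht : ∀ y, Wl r y e) (hN : e + 1 + N = n) {x0 : F}
    (T : Finset (Perm F)) (hT : T.card ≤ N + 1)
    (hall : ∀ y, Rch r (Ico (e + 1) n) x0 y → rf r y e ∈ T) (hp : p ≤ N) (cl : Perm F → Bool)
    (hcl : ∀ g ∈ T, ∀ k ∈ T, g ≠ k → (Commute g k ↔ cl g ≠ cl k))
    (hsz : ∀ b, (T.filter fun g => cl g = b).card ≤ p)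
    (dec : ∀ f : Fin (p + 1) → Bool, ∀ k : Fin (p + 1), k ≠ 0 →
      (∀ i j, i ≠ j → (f i ≠ f j ↔ f (i - k) ≠ f (j - k))) → ∀ i, f i = f 0) :
    (∀ k : ℕ, ∀ y, Rch r (Ico (e + 1) n) x0 y → ∀ i : Fin (p + 1),
      rf r (up r (e + 1) i ((up r (e + 1) p ^ k) y)) e =
        rf r (up r (e + 1) (i - Fin.ofNat (p + 1) k : Fin (p + 1)) y) e) ∧
    ∀ k : ℕ, 0 < k → k ≤ p → ∀ y, Rch r (Ico (e + 1) n) x0 y →
      ¬ Eqv r y ((up r (e + 1) p ^ k) y) := by
  classical
  have um : ∀ i ≤ N, up r (e + 1) i ∈ W r (Ico (e + 1) n) := fun i hi =>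
    W_mono (Ico_subset_Ico_right (by omega)) (up_mem r _ i)
  have cyc : ∀ k : ℕ, ∀ y, Rch r (Ico (e + 1) n) x0 y → ∀ i : Fin (p + 1),
      rf r (up r (e + 1) i ((up r (e + 1) p ^ k) y)) e =
        rf r (up r (e + 1) (i - Fin.ofNat (p + 1) k : Fin (p + 1)) y) e := by
    intro k
    induction k with
    | zero => intro y _ i; simp
    | succ k ih =>
      intro y hy i
      rw [pow_succ, Perm.mul_apply, ih _ (hy.trans ⟨_, um p hp, rfl⟩),
        h.simp_up ht hN T hT hall p hp y hy _ (by omega)]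
      have e1 : Fin.ofNat (p + 1) (k + 1) = Fin.ofNat (p + 1) k + 1 := by
        ext; simp [Fin.val_add]
      rw [e1, ← sub_sub]
      generalize i - Fin.ofNat (p + 1) k = j
      congr 3
      by_cases e0 : j = 0
      · subst e0
        simp [Fin.coe_neg_one]
      · rw [if_neg (show ¬ (j : ℕ) = 0 from fun hh => e0 (Fin.ext hh)), if_pos (by omega),
          Fin.coe_sub_one, if_neg e0]
  refine ⟨cyc, ?_⟩
  rintro k k0 kp y hy ⟨γ, hγ, he⟩
  let t : Fin (p + 1) → Perm F := fun i => rf r (up r (e + 1) i y) e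
  have tT : ∀ i, t i ∈ T := fun i => hall _ (hy.trans ⟨_, um i (by omega), rfl⟩)
  have ti : Function.Injective t := fun i j he => by
    rcases lt_trichotomy (i : ℕ) j with hl | hl | hl
    · exact absurd he (h.rf_dist ht hl (by omega) y)
    · exact Fin.ext hl
    · exact absurd he.symm (h.rf_dist ht hl (by omega) y)
  have tc : ∀ i, t (i - Fin.ofNat (p + 1) k) = γ * t i * γ⁻¹ := fun i => by
    rw [← h.rf_conj (ht _) hγ, Aut.appW hγ (um i (by omega)), he, cyc k y hy]
  have := dec (fun i => cl (t i)) (Fin.ofNat (p + 1) k) (fun hh => by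
    have := congrArg Fin.val hh
    simp only [Fin.val_ofNat, Fin.val_zero] at this
    rw [Nat.mod_eq_of_lt (by omega)] at this
    omega) fun i j hij => by
      rw [← hcl _ (tT _) _ (tT _) (ti.ne hij),
        ← hcl _ (tT _) _ (tT _) (ti.ne fun hh => hij (sub_left_inj.1 hh)), tc, tc,
        Commute.conj_iff]
  have h1 := Finset.card_le_card_of_injOn (s := Finset.univ)
    (t := T.filter fun g => cl g = cl (t 0)) t
    (fun i _ => by simpa using ⟨tT i, this i⟩) ti.injOn
  have h2 := hsz (cl (t 0))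
  simp only [Finset.card_univ, Fintype.card_fin] at h1
  omega

end PS

end Pool.Agent.FlagOrb
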