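import Pool.Agent.Lib.F77.EightA

/-! No polytope of dimension eight has four flag orbits. -/

namespace Pool.Agent.FlagOrb

open Equiv Set

lemma star7 {a b c : ℕ} (ha : 1 ≤ a) (hb : 1 ≤ b) (hc : 1 ≤ c) (hs : 7 ≤ a + b + c)
    (h : (a : ℝ) / (2 * (a + 1)) + b / (2 * (b + 1)) + c / (2 * (c + 1)) < 1) :
    (a = 1 ∧ b = 1) ∨ (a = 1 ∧ c = 1) ∨ (b = 1 ∧ c = 1) ∨
      (a + b + c = 7 ∧ b ≤ 4 ∧ c ≤ 4 ∧ (a ≤ 2 ∨ a = 4 ∧ b ≤ 2 ∧ c ≤ 2)) := by
  by_cases h8 : 8 ≤ a + b + c
  · have := star_arith ha hb hc h8 h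
    omega
  have : a ≤ 5 := by omega
  have : b ≤ 5 := by omega
  have : c ≤ 5 := by omega
  interval_cases a <;> interval_cases b <;> interval_cases c <;>
    first | omega | (exfalso; norm_num at h)

namespace PS

variable {F L : Type} [Lattice L] {n : ℕ} {r : ℕ → Perm F} {φ : ℕ → F → L} (h : PS n r φ)
include h

lemma five [Finite F] {e N : ℕ} (ht : ∀ y, Wl r y e) (hN : e + 1 + N = n) {x0 : F}
    (T : Finset (Perm F)) (hT : T.card ≤ N + 1)
    (hall : ∀ y, Rch r (Ico (e + 1) n) x0 y → rf r y e ∈ T) (hp : 4 ≤ N) (cl : Perm F → Bool)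
    (hcl : ∀ g ∈ T, ∀ k ∈ T, g ≠ k → (Commute g k ↔ cl g ≠ cl k))
    (hsz : ∀ b, (T.filter fun g => cl g = b).card ≤ 4) : 5 ≤ nty r := by
  have key := (h.simp_key ht hN T hT hall hp cl hcl hsz (by decide)).2
  have um : up r (e + 1) 4 ∈ W r (Ico (e + 1) n) :=
    W_mono (Ico_subset_Ico_right (by omega)) (up_mem r _ 4)
  have k2 : ∀ i j : Fin 5, (i : ℕ) < j →
      ¬ Eqv r ((up r (e + 1) 4 ^ (i : ℕ)) x0) ((up r (e + 1) 4 ^ (j : ℕ)) x0) := by
    intro i j hij
    have := key (j - i) (by omega) (by omega) _ ⟨_, pow_mem um i, rfl⟩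
    rwa [← Perm.mul_apply, ← pow_add, show (j : ℕ) - i + i = j by omega] at this
  have := Nat.card_le_card_of_injective
    (fun i : Fin 5 => Quotient.mk (tySetoid r) ((up r (e + 1) 4 ^ (i : ℕ)) x0)) (by
      intro i j he
      have he' := Quotient.exact he
      rcases lt_trichotomy (i : ℕ) j with hl | hl | hl
      · exact absurd he' (k2 i j hl)
      · exact Fin.ext hl
      · exact absurd (Eqv.symm he') (k2 j i hl))
  simpa [nty] using this

lemma three [Finite F] (hn : n = 8) (ht : ∀ y, Wl r y 5) {x0 : F}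
    (T : Finset (Perm F)) (hT : T.card ≤ 2 + 1)
    (hall : ∀ y, Rch r (Ico (5 + 1) n) x0 y → rf r y 5 ∈ T) (cl : Perm F → Bool)
    (hcl : ∀ g ∈ T, ∀ k ∈ T, g ≠ k → (Commute g k ↔ cl g ≠ cl k))
    (hsz : ∀ b, (T.filter fun g => cl g = b).card ≤ 2)
    (rep : ∀ w, ∃ x, Rch r (Ico (5 + 1) n) x0 x ∧ Eqv r x w) : nty r ≠ 4 := by
  classical
  subst hn
  intro h4
  obtain ⟨cyc, key⟩ := h.simp_key (N := 2) ht rfl T hT hall le_rfl cl hcl hsz (by decide)
  have um : up r (5 + 1) 2 ∈ W r (Ico (5 + 1) 8) := up_mem r _ 2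
  have e : up r (5 + 1) 2 = r 6 * r 7 := by simp [up]
  have p3 : ∀ y, Rch r (Ico (5 + 1) 8) x0 y → ((r 6 * r 7) ^ 3) y = y := by
    intro y hy
    have hr : Rch r (Ico (5 + 1) 8) y ((up r (5 + 1) 2 ^ 3) y) := ⟨_, pow_mem um 3, rfl⟩
    have f0 : φ 7 y = φ 7 ((up r (5 + 1) 2 ^ 3) y) :=
      h.rf_face ht (by omega) (hr.mono Ico_subset_Ici_self) (cyc 3 y hy 0).symm
    have c := h.conn 7 8 y _ (by omega) le_rfl (fun i hi => by
      rcases hi.eq_or_lt with rfl | hi
      · exact f0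
      · exact (h.sameR hr fun c hc => by have := hc.1; omega).symm) fun i h1 h2 => by
        obtain rfl : i = 8 + 1 := by omega
        exact h.top _ _
    have c2 := c.ind (fun c _ => h.inv c) (P := fun z => z = y ∨ z = r 7 y) (Or.inl rfl) (by
      rintro z c hc - hz
      obtain rfl : c = 7 := by have := hc.1; have := hc.2; omega
      rcases hz with rfl | rfl
      exacts [Or.inr rfl, Or.inl (h.rr _ _)])
    rw [← e]
    refine c2.resolve_right fun hz => ?_
    have c1 := cyc 3 y hy 1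
    rw [hz] at c1
    exact h.rf_dist ht (i := 1) (j := 2) (by omega) le_rfl y c1.symm
  have := Fintype.ofFinite (Quotient (tySetoid r))
  have : Fact (Nat.Prime 3) := ⟨Nat.prime_three⟩
  obtain ⟨a, ha⟩ := Equiv.Perm.exists_fixed_point_of_prime (p := 3) (n := 1)
    (α := Quotient (tySetoid r)) (by rw [← Nat.card_eq_fintype_card]; change ¬ 3 ∣ nty r; omega)
    (σ := rho r h.inv 6 * rho r h.inv 7) (by
      ext ⟨w⟩
      obtain ⟨x, hx, hw⟩ := rep w
      rw [show Quot.mk _ w = Quotient.mk (tySetoid r) x from (Quotient.sound hw).symm, pow_one,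
        ← pow_equiv (A := r 6) (B := r 7) (pr := Quotient.mk (tySetoid r)) (fun _ => rfl)
          (fun _ => rfl) 3 x, p3 x hx]
      rfl)
  obtain ⟨w, rfl⟩ := Quotient.exists_rep a
  obtain ⟨x, hx, hw⟩ := rep w
  rw [← Quotient.sound (s := tySetoid r) hw] at ha
  refine key 1 (by omega) (by omega) x hx ?_
  rw [pow_one, e]
  exact Eqv.symm (Quotient.exact ha)

theorem last [Finite F] {v : ℕ} (hn : n = v + 4) (ht : ∀ c ≤ v + 2, ∀ x, Wl r x c) (x0 : F) :
    Wl r x0 (v + 3) := by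
  classical
  by_contra hx
  have hv : v + 3 < n := by omega
  obtain ⟨C, hC⟩ := (h.wall (a := 0) (b := n) le_rfl x0).1.exC
  set S' := WallsI r 0 n x0 (Ico (v + 3) n) with hS'
  have hsub : S' ⊆ Walls r 0 n x0 := WallsI.sub (Ico_subset_Ico_left (by omega))
  have hD : ∀ x, InD r 0 n x0 x → Rch r (Ico (v + 3) n) x0 x := fun x hx => hx.rch (by
    intro c hc hn y
    simp only [mem_Ico] at hc hn
    exact ht c (by omega) y)
  have d0 : InD r 0 n x0 x0 := InD.refl _
  have d1 : InD r 0 n x0 (r (v + 3) x0) := d0.next ⟨by omega, hv⟩ hx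
  have mem : ∀ x, InD r 0 n x0 x → ∀ c ≤ v + 2, rf r x c ∈ Walls r 0 n x0 :=
    fun x hx c hc => wall_mem hx ⟨by omega, by omega⟩ (ht c hc x)
  have low : ∀ x, InD r 0 n x0 x → ∀ c ≤ v + 1, rf r x c = rf r x0 c := fun x hx c hc =>
    h.rf_rch (ht c (by omega) _) (hD x hx) fun c' hc' => by have := hc'.1; omega
  have nS : ∀ x, InD r 0 n x0 x → ∀ c ≤ v + 2, rf r x c ∉ S' := by
    rintro x hx c hc ⟨y, c', hy, hc', hw, he⟩
    exact h.rf_sep ((hD x hx).symm.trans (hD y hy)) (fun hh => by have := hh.1; omega) hc'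
      (ht c hc _) hw (by omega) he
  have ab : ∀ x, InD r 0 n x0 x → ¬ Commute (rf r x0 (v + 1)) (rf r x (v + 2)) := by
    intro x hx
    rw [← low x hx _ le_rfl]
    exact h.rf_adj (ht _ (by omega) _) (ht _ (by omega) _) (by omega)
  have nl : ∀ x, InD r 0 n x0 x → ∀ c ≤ v + 1, rf r x0 c ≠ rf r x (v + 2) := by
    intro x hx c hc
    rw [← low x hx c hc]
    exact h.rf_ne (ht _ (by omega) _) (ht _ (by omega) _) (by omega) (by omega)
  have al : ¬ Commute (rf r x0 (v + 1)) (rf r x0 v) :=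
    adj_symm (h.rf_adj (ht _ (by omega) _) (ht _ (by omega) _) (by omega))
  have gg : rf r x0 (v + 2) ≠ rf r (r (v + 3) x0) (v + 2) :=
    h.rf_step_ne (ht _ le_rfl _) (ht _ le_rfl _) (Or.inl ⟨rfl, hv⟩)
  have hA : ∀ x, InD r 0 n x0 x → rf r x (v + 2) = rf r x0 (v + 2) ∨
      rf r x (v + 2) = rf r (r (v + 3) x0) (v + 2) := by
    intro x hx
    by_contra hcon
    push Not at hcon
    have mb := mem x0 d0 (v + 1) (by omega)
    refine hC.br_false mb (hC.br_union
      (hC.br_two mb (mem x0 d0 v (by omega)) (mem x hx _ le_rfl) (nl x hx v (by omega)) al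
        (ab x hx))
      (hC.br_two mb (mem x0 d0 _ le_rfl) (mem _ d1 _ le_rfl) gg (ab _ d0) (ab _ d1)) ?_)
      (by norm_num)
    simp only [Finset.disjoint_insert_left, Finset.mem_insert, Finset.mem_singleton, not_or,
      Finset.disjoint_singleton_left]
    exact ⟨⟨nl _ d0 v (by omega), nl _ d1 v (by omega)⟩, hcon⟩
  obtain ⟨-, -, -, -, -, -, -, -, qb, -⟩ := hC.arm (Set.toFinite _)
    (fun g hg => h.walls_sq hg) (mem x0 d0 (v + 1) (by omega)) (mem x0 d0 v (by omega))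
    (mem x0 d0 _ le_rfl) (mem _ d1 _ le_rfl) hsub (nS _ d0 _ (by omega)) (nS _ d0 _ (by omega))
    (nS _ d0 _ le_rfl) (nS _ d1 _ le_rfl) al (ab _ d0) (ab _ d1) (nl _ d0 v (by omega))
    (nl _ d1 v (by omega)) gg
  obtain ⟨-, -, -, -, -, -, -, -, qb', -⟩ := hC.arm (Set.toFinite _)
    (fun g hg => h.walls_sq hg) (mem x0 d0 (v + 1) (by omega)) (mem x0 d0 v (by omega))
    (mem _ d1 _ le_rfl) (mem x0 d0 _ le_rfl) hsub (nS _ d0 _ (by omega)) (nS _ d0 _ (by omega))
    (nS _ d1 _ le_rfl) (nS _ d0 _ le_rfl) al (ab _ d1) (ab _ d0) (nl _ d1 v (by omega))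
    (nl _ d0 v (by omega)) gg.symm
  subst hn
  have p3 : ∀ w, per r (v + 1) w = 3 := by
    intro w
    obtain ⟨γ, hγ, x, hx, rfl⟩ := h.decomp (a := 0) (b := v + 4) (x0 := x0) subset_rfl
      (h.all x0 w)
    rw [← Eqv.per_eq ⟨γ, WallsI.aut subset_rfl hγ, rfl⟩]
    apply h.per_three (ht _ (by omega) _) (ht _ (by omega) _) (by omega)
    rw [low x hx _ le_rfl]
    rcases hA x hx with e | e <;> rw [show rf r x (v + 1 + 1) = _ from e]
    exacts [qb, qb']
  apply hx
  refine h.typing (fun x y => Eqv r x y ∨ Eqv r (r (v + 3) x) y) ?_ ?_ (Or.inr (Eqv.refl _))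
  · rintro x y c (e | e)
    · exact Or.inl (e.step c)
    · right
      by_cases c1 : c ≤ v + 2
      · exact ((Eqv.step (ht c c1 x) (v + 3)).symm.trans e).trans (ht c c1 y)
      by_cases c2 : c = v + 3
      · subst c2
        exact e.step _
      · rw [h.triv c (by omega)]; exact e
  · rintro x y l (e | e) hl
    · exact e.per_eq l
    · by_cases c1 : l = v + 1
      · rw [c1, p3, p3]
      · rw [← e.per_eq l, h.per_step (by omega) (by omega)]

theorem U8 [Finite F] {v : ℕ} (hn : n = 8) (hv : v + 3 < n) (ht : ∀ c ≤ v + 2, ∀ x, Wl r x c)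
    {x0 : F} (hx : ¬ Wl r x0 (v + 3)) : nty r ≠ 4 := by
  classical
  intro h4
  obtain ⟨C, hC⟩ := (h.wall (a := 0) (b := n) le_rfl x0).1.exC
  set S' := WallsI r 0 n x0 (Ico (v + 3) n) with hS'
  have hsub : S' ⊆ Walls r 0 n x0 := WallsI.sub (Ico_subset_Ico_left (by omega))
  have hD : ∀ x, InD r 0 n x0 x → Rch r (Ico (v + 3) n) x0 x := fun x hx => hx.rch (by
    intro c hc hn y
    simp only [mem_Ico] at hc hn
    exact ht c (by omega) y)
  have d0 : InD r 0 n x0 x0 := InD.refl _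
  have d1 : InD r 0 n x0 (r (v + 3) x0) := d0.next ⟨by omega, hv⟩ hx
  have mem : ∀ x, InD r 0 n x0 x → ∀ c ≤ v + 2, rf r x c ∈ Walls r 0 n x0 :=
    fun x hx c hc => wall_mem hx ⟨by omega, by omega⟩ (ht c hc x)
  have low : ∀ x, InD r 0 n x0 x → ∀ c ≤ v + 1, rf r x c = rf r x0 c := fun x hx c hc =>
    h.rf_rch (ht c (by omega) _) (hD x hx) fun c' hc' => by have := hc'.1; omega
  have nS : ∀ x, InD r 0 n x0 x → ∀ c ≤ v + 2, rf r x c ∉ S' := by
    rintro x hx c hc ⟨y, c', hy, hc', hw, he⟩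
    exact h.rf_sep ((hD x hx).symm.trans (hD y hy)) (fun hh => by have := hh.1; omega) hc'
      (ht c hc _) hw (by omega) he
  have ab : ∀ x, InD r 0 n x0 x → ¬ Commute (rf r x0 (v + 1)) (rf r x (v + 2)) := by
    intro x hx
    rw [← low x hx _ le_rfl]
    exact h.rf_adj (ht _ (by omega) _) (ht _ (by omega) _) (by omega)
  have nl : ∀ x, InD r 0 n x0 x → ∀ c ≤ v + 1, rf r x0 c ≠ rf r x (v + 2) := by
    intro x hx c hc
    rw [← low x hx c hc]
    exact h.rf_ne (ht _ (by omega) _) (ht _ (by omega) _) (by omega) (by omega)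
  have al : ¬ Commute (rf r x0 (v + 1)) (rf r x0 v) :=
    adj_symm (h.rf_adj (ht _ (by omega) _) (ht _ (by omega) _) (by omega))
  have gg : rf r x0 (v + 2) ≠ rf r (r (v + 3) x0) (v + 2) :=
    h.rf_step_ne (ht _ le_rfl _) (ht _ le_rfl _) (Or.inl ⟨rfl, hv⟩)
  have hA : ∀ x, InD r 0 n x0 x → rf r x (v + 2) = rf r x0 (v + 2) ∨
      rf r x (v + 2) = rf r (r (v + 3) x0) (v + 2) := by
    intro x hx
    by_contra hcon
    push Not at hcon
    have mb := mem x0 d0 (v + 1) (by omega)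
    refine hC.br_false mb (hC.br_union
      (hC.br_two mb (mem x0 d0 v (by omega)) (mem x hx _ le_rfl) (nl x hx v (by omega)) al
        (ab x hx))
      (hC.br_two mb (mem x0 d0 _ le_rfl) (mem _ d1 _ le_rfl) gg (ab _ d0) (ab _ d1)) ?_)
      (by norm_num)
    simp only [Finset.disjoint_insert_left, Finset.mem_insert, Finset.mem_singleton, not_or,
      Finset.disjoint_singleton_left]
    exact ⟨⟨nl _ d0 v (by omega), nl _ d1 v (by omega)⟩, hcon⟩
  obtain ⟨q, m, hq, q0, qS, qa, qg, qc, -, qo⟩ := hC.arm (Set.toFinite _)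
    (fun g hg => h.walls_sq hg) (mem x0 d0 (v + 1) (by omega)) (mem x0 d0 v (by omega))
    (mem x0 d0 _ le_rfl) (mem _ d1 _ le_rfl) hsub (nS _ d0 _ (by omega)) (nS _ d0 _ (by omega))
    (nS _ d0 _ le_rfl) (nS _ d1 _ le_rfl) al (ab _ d0) (ab _ d1) (nl _ d0 v (by omega))
    (nl _ d1 v (by omega)) gg
  obtain ⟨q', m', hq', q0', qS', qa', qg', qc', -, qo'⟩ := hC.arm (Set.toFinite _)
    (fun g hg => h.walls_sq hg) (mem x0 d0 (v + 1) (by omega)) (mem x0 d0 v (by omega))
    (mem _ d1 _ le_rfl) (mem x0 d0 _ le_rfl) hsub (nS _ d0 _ (by omega)) (nS _ d0 _ (by omega))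
    (nS _ d1 _ le_rfl) (nS _ d0 _ le_rfl) al (ab _ d1) (ab _ d0) (nl _ d1 v (by omega))
    (nl _ d0 v (by omega)) gg.symm
  set T := (Finset.range (m + 1)).image (armC q) ∪ (Finset.range (m' + 1)).image (armC q')
    with hT
  have hall : ∀ y, Rch r (Ico (v + 2 + 1) n) x0 y → rf r y (v + 2) ∈ T := by
    intro y hy
    obtain ⟨γ, hγ, x, hx, he⟩ := h.decomp (a := 0) (b := n) (x0 := x0)
      (Ico_subset_Ico_left (Nat.zero_le (v + 3))) hy
    simp only [he, hT, h.rf_conj (ht _ le_rfl _) (WallsI.aut subset_rfl hγ), Finset.mem_union,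
      Finset.mem_image, Finset.mem_range]
    rcases hA x hx with e | e <;> rw [e]
    · obtain ⟨j, hj, e2⟩ := qo γ hγ
      exact Or.inl ⟨j, by omega, e2.symm⟩
    · obtain ⟨j, hj, e2⟩ := qo' γ hγ
      exact Or.inr ⟨j, by omega, e2.symm⟩
  have h3 := Finset.card_image_le (s := Finset.range (m + 1)) (f := armC q)
  have h5 := Finset.card_image_le (s := Finset.range (m' + 1)) (f := armC q')
  have Tc : T.card ≤ (m + 1) + (m' + 1) := by
    have h2 := Finset.card_union_le ((Finset.range (m + 1)).image (armC q))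
      ((Finset.range (m' + 1)).image (armC q'))
    simp only [Finset.card_range] at h3 h5
    rw [hT]
    omega
  have cnt : n - (v + 3) + 1 ≤ (m + 1) + (m' + 1) := by
    have h1 := Finset.card_le_card_of_injOn (s := Finset.range (n - (v + 3) + 1)) (t := T)
      (fun i => rf r (up r (v + 3) i x0) (v + 2)) ?_ ?_
    · simp only [Finset.card_range] at h1
      omega
    · intro i hi
      have hi' : v + 3 + i ≤ n := by
        have : i < n - (v + 3) + 1 := by simpa using hi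
        omega
      exact hall _ ⟨_, W_mono (Ico_subset_Ico_right hi') (up_mem r (v + 3) i), rfl⟩
    · intro i hi j hj he
      have hi' : i < n - (v + 3) + 1 := by simpa using hi
      have hj' : j < n - (v + 3) + 1 := by simpa using hj
      rcases lt_trichotomy i j with hl | hl | hl
      · exact absurd he (h.rf_dist (ht _ le_rfl) hl (by omega) x0)
      · exact hl
      · exact absurd he.symm (h.rf_dist (ht _ le_rfl) hl (by omega) x0)
  have nq : ∀ c ≤ v + 1, ∀ i ≤ m, rf r x0 c ≠ q i := by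
    rintro c hc (_ | i) hi
    · rw [q0]; exact nl _ d0 c hc
    · exact fun he => nS _ d0 c (by omega) (he ▸ qS _ (by omega) hi)
  have nq' : ∀ c ≤ v + 1, ∀ i ≤ m', rf r x0 c ≠ q' i := by
    rintro c hc (_ | i) hi
    · rw [q0']; exact nl _ d1 c hc
    · exact fun he => nS _ d0 c (by omega) (he ▸ qS' _ (by omega) hi)
  have dj : ∀ j ≤ m', ∀ i ≤ m, q i ≠ q' j := by
    intro j
    induction j with
    | zero =>
      rintro _ (_ | i) hi
      · rw [q0, q0']; exact gg
      · rw [q0']; exact fun he => nS _ d1 _ le_rfl (he ▸ qS _ (by omega) hi)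
    | succ j ih =>
      intro hj i hi he
      apply hq'.adj j hj
      rw [← he]
      rcases j with _ | j
      · rw [q0']; exact qg i hi
      · exact qa _ (qS' _ (by omega) (by omega)) (fun k hk => (ih (by omega) k hk).symm) i hi
  have p1 : IsPath (Walls r 0 n x0) (fun t => rf r x0 (v + 1 - t)) (v + 1) :=
    ⟨fun i hi => mem _ d0 _ (by omega), fun i hi j hj he => by
      by_contra hij
      exact h.rf_ne (ht _ (by omega) _) (ht _ (by omega) _) (by omega) (by omega) he,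
      fun i hi => by
        rw [show v + 1 - i = v + 1 - (i + 1) + 1 by omega]
        exact adj_symm (h.rf_adj (ht _ (by omega) _) (ht _ (by omega) _) (by omega))⟩
  have p2 := hq.cons (mem x0 d0 (v + 1) (by omega)) (nq _ le_rfl) (by rw [q0]; exact ab _ d0)
  have p3 := hq'.cons (mem x0 d0 (v + 1) (by omega)) (nq' _ le_rfl) (by rw [q0']; exact ab _ d1)
  have st := hC.star p1 p2 p3 rfl rfl
    (by
      rintro i (_ | j) i1 i2 j1 j2
      · omega
      · exact nq _ (by omega) j (by omega))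
    (by
      rintro i (_ | j) i1 i2 j1 j2
      · omega
      · exact nq' _ (by omega) j (by omega))
    (by
      rintro (_ | i) (_ | j) i1 i2 j1 j2
      · omega
      · omega
      · omega
      · exact dj j (by omega) i (by omega))
  by_cases hmm : m = 0 ∧ m' = 0
  · exact hx (h.last (by omega) ht x0)
  rcases star7 (by omega) (by omega) (by omega) (by omega) st with e | e | e | e
  · obtain rfl : v = 0 := by omega
    obtain rfl : m = 0 := by omega
    refine absurd (h.U3 (by omega) (ht 2 le_rfl) hS' hD d0 d1 (fun x hx => (hA x hx).symm) ?_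
      (q0' ▸ qg' 0 (by omega)) (qS' 1 le_rfl (by omega)) (q0' ▸ hq'.adj 0 (by omega))
      (q0' ▸ qc' 0 (by omega))) (by omega)
    intro s hs
    rw [← q0]
    refine qa s hs (fun i hi he => ?_) 0 le_rfl
    obtain rfl : i = 0 := by omega
    exact nS _ d0 _ le_rfl (q0 ▸ he ▸ hs)
  · obtain rfl : v = 0 := by omega
    obtain rfl : m' = 0 := by omega
    refine absurd (h.U3 (by omega) (ht 2 le_rfl) hS' hD d1 d0 hA ?_
      (q0 ▸ qg 0 (by omega)) (qS 1 le_rfl (by omega)) (q0 ▸ hq.adj 0 (by omega))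
      (q0 ▸ qc 0 (by omega))) (by omega)
    intro s hs
    rw [← q0']
    refine qa' s hs (fun i hi he => ?_) 0 le_rfl
    obtain rfl : i = 0 := by omega
    exact nS _ d1 _ le_rfl (q0' ▸ he ▸ hs)
  · omega
  have cq : ∀ i ≤ m, ∀ j ≤ m', Commute (armC q i) (armC q' j) := fun i hi j hj =>
    armC_comm j fun k hk => (armC_comm i fun l hl => by
      rcases k with _ | k
      · rw [q0']; exact qg l (by omega)
      · exact qa _ (qS' _ (by omega) (by omega)) (fun t ht => (dj _ (by omega) t ht).symm) l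
          (by omega)).symm
  have nc : ∀ {q : ℕ → Perm F} {m : ℕ}, IsPath (Walls r 0 n x0) q m →
      (∀ i < m, (q i * q (i + 1)) ^ 3 = 1) → ∀ i ≤ m, ∀ j ≤ m, armC q i ≠ armC q j →
      ¬ Commute (armC q i) (armC q j) := by
    intro q m hq qc i hi j hj hne
    have k := fun i j => armC_nc (fun i hi => h.walls_sq (hq.mem i hi)) hq.adj qc
      (fun i j h1 h2 => hC.path_comm hq h1 h2) (i := i) (j := j)
    rcases lt_trichotomy i j with hl | rfl | hl
    exacts [k i j hl hj, absurd rfl hne, adj_symm (k j i hl hi)]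
  let cl : Perm F → Bool := fun g => decide (g ∈ (Finset.range (m + 1)).image (armC q))
  have c1 : ∀ g, cl g = true → ∃ i ≤ m, armC q i = g := fun g hg => by
    simpa [cl, Nat.lt_succ_iff] using hg
  have c2 : ∀ g ∈ T, cl g = false → ∃ i ≤ m', armC q' i = g := fun g hg hc => by
    rcases Finset.mem_union.1 hg with k | k
    · exact absurd k (of_decide_eq_false hc)
    · simpa [Nat.lt_succ_iff] using k
  have hcl : ∀ g ∈ T, ∀ k ∈ T, g ≠ k → (Commute g k ↔ cl g ≠ cl k) := by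
    intro g hg k hk hne
    cases e1 : cl g <;> cases e2 : cl k
    · obtain ⟨i, hi, rfl⟩ := c2 g hg e1
      obtain ⟨j, hj, rfl⟩ := c2 k hk e2
      simpa using nc hq' qc' i hi j hj hne
    · obtain ⟨i, hi, rfl⟩ := c2 g hg e1
      obtain ⟨j, hj, rfl⟩ := c1 k e2
      simpa using (cq j hj i hi).symm
    · obtain ⟨i, hi, rfl⟩ := c1 g e1
      obtain ⟨j, hj, rfl⟩ := c2 k hk e2
      simpa using cq i hi j hj
    · obtain ⟨i, hi, rfl⟩ := c1 g e1
      obtain ⟨j, hj, rfl⟩ := c1 k e2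
      simpa using nc hq qc i hi j hj hne
  have hsz : ∀ p, m + 1 ≤ p → m' + 1 ≤ p → ∀ b, (T.filter fun g => cl g = b).card ≤ p := by
    intro p p1 p2 b
    simp only [Finset.card_range] at h3 h5
    cases b
    · refine (Finset.card_le_card (t := (Finset.range (m' + 1)).image (armC q')) fun g hg => ?_).trans
        (by omega)
      obtain ⟨i, hi, rfl⟩ := c2 g (Finset.mem_filter.1 hg).1 (Finset.mem_filter.1 hg).2
      exact Finset.mem_image_of_mem _ (by simpa [Nat.lt_succ_iff] using hi)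
    · refine (Finset.card_le_card (t := (Finset.range (m + 1)).image (armC q)) fun g hg => ?_).trans
        (by omega)
      obtain ⟨i, hi, rfl⟩ := c1 g (Finset.mem_filter.1 hg).2
      exact Finset.mem_image_of_mem _ (by simpa [Nat.lt_succ_iff] using hi)
  by_cases hv3 : v = 3
  · subst hv3
    exact h.three hn (fun y => ht _ le_rfl y) T (by omega) hall cl hcl
      (hsz 2 (by omega) (by omega)) (fun w => by
        obtain ⟨γ, hγ, x, hx, rfl⟩ := h.decomp (a := 0) (b := n) (x0 := x0) subset_rfl (h.all x0 w)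
        exact ⟨x, hD x hx, γ, WallsI.aut subset_rfl hγ, rfl⟩) h4
  · have := h.five (N := n - (v + 3)) (fun y => ht _ le_rfl y) (by omega) T (by omega) hall
      (by omega) cl hcl (hsz 4 (by omega) (by omega))
    omega

theorem range [Finite F] [Nonempty F] : nty r = 1 ∨ ∃ u v, u ≤ v ∧ v < n ∧
    (∀ c < u, ∀ x, Wl r x c) ∧ (∀ c, v < c → ∀ x, Wl r x c) ∧ (∃ x, ¬ Wl r x u) ∧
    (∃ x, ¬ Wl r x v) ∧ (v + 2 ≤ nty r + u ∨ v + 1 = nty r + u ∧ 3 ≤ nty r) := by
  classical
  have hS := h.toStr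
  obtain ⟨x0⟩ := ‹Nonempty F›
  by_cases hall : ∀ c < n, ∀ x, Wl r x c
  · left
    rw [nty, Nat.card_eq_one_iff_exists]
    refine ⟨Quotient.mk _ x0, ?_⟩
    rintro ⟨y⟩
    refine Quotient.sound ((h.all x0 y).ind (fun c _ => h.inv c) (P := fun y => Eqv r y x0)
      (Eqv.refl _) fun y c hc _ ih => (hall c hc.2 y).symm.trans ih)
  right
  push Not at hall
  let P : ℕ → Prop := fun c => c < n ∧ ∃ x, ¬ Wl r x c
  have u1 : P (Nat.find hall) := Nat.find_spec hall
  have u2 : ∀ c < Nat.find hall, ∀ x, Wl r x c := by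
    intro c hc x
    by_contra hx
    exact Nat.find_min hall hc ⟨hc.trans u1.1, x, hx⟩
  have v1 : P (Nat.findGreatest P n) := Nat.findGreatest_spec u1.1.le u1
  have v2 : Nat.find hall ≤ Nat.findGreatest P n := Nat.le_findGreatest u1.1.le u1
  have v3 : ∀ c, Nat.findGreatest P n < c → ∀ x, Wl r x c := by
    intro c hc x
    by_cases hcn : c < n
    · by_contra hx
      exact Nat.findGreatest_is_greatest hc hcn.le ⟨hcn, x, hx⟩
    · unfold Wl
      rw [h.triv c (by omega)]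
      exact Eqv.refl _
  generalize Nat.find hall = u at *
  generalize Nat.findGreatest P n = v at *
  obtain ⟨u0, xu, hxu⟩ := u1
  obtain ⟨v0, xv, hxv⟩ := v1
  have triv : ∀ c, c ∉ Ico u (v + 1) → rho r h.inv c = 1 := by
    intro c hc
    ext ⟨x⟩
    simp only [mem_Ico] at hc
    refine h.rho_fix.2 ?_
    by_cases h1 : c < u
    exacts [u2 c h1 x, v3 c (by omega) x]
  have hO : orb (rho r h.inv) (Ico u (v + 1)) (Quotient.mk _ x0) = univ := by
    rw [eq_univ_iff_forall]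
    rintro ⟨y⟩
    obtain ⟨g, hg, he⟩ := h.rho_rch (h.all x0 y)
    refine ⟨g, W_le (fun c _ => ?_) hg, he⟩
    by_cases hc : c ∈ Ico u (v + 1)
    · exact W_gen hc
    · rw [triv c hc]; exact one_mem _
  have hG : Gd (rho r h.inv) u (v + 1) (Quotient.mk _ x0) := by
    refine ⟨fun g _ hf => ?_, fun c hc he => ?_, fun z h1 h2 => ?_⟩
    · ext y
      exact hf y (hO ▸ mem_univ y)
    · have : ∃ x, ¬ Wl r x c := by
        rcases hc.1.eq_or_lt with rfl | c1
        · exact ⟨xu, hxu⟩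
        rcases (Nat.lt_succ_iff.1 hc.2).eq_or_lt with rfl | c2
        · exact ⟨xv, hxv⟩
        exact h.T c1 c2 v0 ⟨xu, hxu⟩ ⟨xv, hxv⟩
      obtain ⟨x, hx⟩ := this
      exact hx (h.rho_fix.1 (by rw [he]; rfl))
    · ext ⟨x⟩
      obtain ⟨y, hy⟩ := Quotient.exists_rep (z (Quotient.mk _ x))
      have := h.typing (fun x y => z (Quotient.mk _ x) = Quotient.mk _ y) ?_ ?_ hy.symm
      · exact hy.symm.trans (Quotient.sound this.symm)
      · intro x y c he
        have hc : Commute z (rho r h.inv c) := by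
          by_cases hc : c ∈ Ico u (v + 1)
          · exact h1 c hc
          · rw [triv c hc]; exact Commute.one_right _
        change z (rho r h.inv c (Quotient.mk _ x)) = rho r h.inv c (Quotient.mk _ y)
        rw [← Perm.mul_apply, hc.eq, Perm.mul_apply, he]
      · intro x y l he _
        change lab r l (Quotient.mk _ x) = lab r l (Quotient.mk _ y)
        rw [← he]
        refine Rch.ind (t := rho r h.inv) (I := Ico u (v + 1) \ Dl l) (fun c _ => hS.inv c)
          (P := fun w => lab r l (Quotient.mk _ x) = lab r l w) rfl ?_ ⟨z, h2 l, rfl⟩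
        intro w c hc _ ih
        have := hc.2
        simp only [Dl, mem_ofPred_eq, not_or] at this
        rw [hS.pinv l c w this.1 this.2, ih]
  have := str hS _ u (v + 1) _ rfl (by omega) (by omega) hG
  unfold Concl at this
  rw [hO, Set.ncard_univ] at this
  change _ ≤ nty r ∨ _ = nty r ∧ (nty r = 3 ∨ nty r = 4 ∨ nty r = 6) ∧ _ ∧ (nty r = 6 → _) at this
  exact ⟨u, v, v2, v0, u2, v3, ⟨xu, hxu⟩, ⟨xv, hxv⟩, by
    rcases this with h1 | ⟨h1, h2, -⟩ <;> omega⟩

theorem core8 [Finite F] [Nonempty F] (hn : n = 8) : nty r ≠ 4 := by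
  obtain h1 | ⟨u, v, v2, v0, u2, v3, ⟨xu, hxu⟩, ⟨xv, hxv⟩, h1⟩ := h.range
  · omega
  have u0 : u < n := by omega
  by_cases hu : 3 ≤ u
  · obtain ⟨k, rfl⟩ : ∃ k, u = k + 3 := ⟨u - 3, by omega⟩
    exact h.U8 hn u0 (fun c hc => u2 c (by omega)) hxu
  by_cases hv : v + 4 ≤ n
  · rw [← h.nty_rev]
    refine h.mirror.U8 (v := n - v - 4) (x0 := xv) hn (by omega) (fun c hc x => ?_) ?_
    · rw [h.wl_rev (by omega)]
      exact v3 _ (by omega) x
    · rwa [h.wl_rev (by omega), show n - 1 - (n - v - 4 + 3) = v by omega]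
  by_cases huv : u = 2 ∧ n = v + 3
  · exact (h.IRR huv.2 (u2 0 (by omega)) (u2 1 (by omega)) (v3 _ (by omega)) (v3 _ (by omega))
      hxv).elim
  omega

lemma mid [Finite F] {a : ℕ} (hn : a + 2 < n) (h0 : ∀ y, Wl r y a) (h2 : ∀ y, Wl r y (a + 2))
    (x : F) : Wl r x (a + 1) := by
  classical
  by_contra hx
  have hx' : ¬ Wl r (r (a + 1) x) (a + 1) := by rwa [h.wl_step]
  have hD : ∀ w, InD r a (a + 3) x w → w = x ∨ w = r (a + 1) x := by
    intro w hw
    refine hw.ind (P := fun w => w = x ∨ w = r (a + 1) x) (Or.inl rfl) ?_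
    rintro y c _ hc hv i
    obtain rfl : c = a + 1 := by
      have := hc.1
      have := hc.2
      have : c ≠ a := fun e => hv (e ▸ h0 y)
      have : c ≠ a + 2 := fun e => hv (e ▸ h2 y)
      omega
    rcases i with rfl | rfl
    exacts [Or.inr rfl, Or.inl (h.rr _ _)]
  have hM : ∀ g k, Meet r a (a + 3) x g k → ∃ w, (w = x ∨ w = r (a + 1) x) ∧
      ((g = rf r w a ∧ (k = rf r w (a + 2) ∨ k = rf r (r (a + 1) w) a)) ∨
        (g = rf r w (a + 2) ∧ (k = rf r w a ∨ k = rf r (r (a + 1) w) (a + 2)))) := by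
    rintro g k ⟨w, c, c', t, w', e, hw, hc, hc', hcc, hwl, hs, rfl, rfl⟩
    have hw2 : ¬ Wl r w (a + 1) := by
      rcases hD w hw with rfl | rfl
      exacts [hx, hx']
    have := hc.1
    have := hc.2
    have := hc'.1
    have := hc'.2
    have c1 : c ≠ a + 1 := by rintro rfl; exact hw2 hwl
    refine ⟨w, hD w hw, ?_⟩
    cases hs with
    | zero _ _ _ k =>
      have : c' ≠ a + 1 := by rintro rfl; exact hw2 k
      obtain ⟨rfl, rfl⟩ | ⟨rfl, rfl⟩ : (c = a ∧ c' = a + 2) ∨ (c = a + 2 ∧ c' = a) := by omega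
      exacts [Or.inl ⟨rfl, Or.inl rfl⟩, Or.inr ⟨rfl, Or.inl rfl⟩]
    | succ _ _ _ t _ _ k hs =>
      obtain rfl : c' = a + 1 := by
        have : c' ≠ a := by rintro rfl; exact k (h0 _)
        have : c' ≠ a + 2 := by rintro rfl; exact k (h2 _)
        omega
      obtain rfl | rfl : c = a ∨ c = a + 2 := by omega
      · cases hs with
        | zero => exact Or.inl ⟨rfl, Or.inr rfl⟩
        | succ _ _ _ _ _ _ hn _ => exact absurd (h0 _) hn
      · cases hs with
        | zero => exact Or.inr ⟨rfl, Or.inr rfl⟩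
        | succ _ _ _ _ _ _ hn _ => exact absurd (h2 _) hn
  have s1 : rf r x a ≠ rf r (r (a + 1) x) a :=
    h.rf_step_ne (h0 _) (h0 _) (Or.inl ⟨rfl, by omega⟩)
  have s2 : rf r x (a + 2) ≠ rf r (r (a + 1) x) (a + 2) :=
    h.rf_step_ne (h2 _) (h2 _) (Or.inr ⟨rfl, hn⟩)
  have s3 : ∀ w, rf r w a ≠ rf r w (a + 2) := fun w => h.rf_ne (h0 _) (h2 _) (by omega) (by omega)
  have s4 : ∀ w, rf r w a ≠ rf r (r (a + 1) w) (a + 2) := fun w =>
    h.rf_sep (I := Ici (a + 1)) ((Rch.refl w).next (mem_Ici.2 le_rfl)) (by simp) (by simp) (h0 _)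
      (h2 _) (by omega)
  have s5 := s4 (r (a + 1) x)
  have s6 := s3 x
  have s7 := s3 (r (a + 1) x)
  have s8 := s4 x
  rw [h.rr] at s5
  rcases (h.wall (a := a) (b := a + 3) (by omega) x).2 _
    (wall_mem (c := a) (InD.refl x) ⟨by omega, by omega⟩ (h0 _)) _
    (wall_mem (c := a + 2) ((InD.refl x).next (c := a + 1) ⟨by omega, by omega⟩ hx)
      ⟨by omega, by omega⟩ (h2 _)) s8 with hh | hh <;>
  obtain ⟨w, rfl | rfl, ⟨e1, e2 | e2⟩ | ⟨e1, e2 | e2⟩⟩ := hM _ _ hh <;>
  (try rw [h.rr] at e2) <;>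
  first | exact s1 e1 | exact s6 e1 | exact s8 e1 | exact s2 e2.symm | exact s7 e2.symm |
    exact s8 e1.symm | exact s2 e1.symm | exact s7 e1.symm | exact s1 e2 | exact s6 e2

theorem core2 [Finite F] [Nonempty F] (hn : 4 ≤ n) : nty r ≠ 2 := by
  obtain h1 | ⟨u, v, v2, v0, u2, v3, ⟨xu, hxu⟩, -, h1⟩ := h.range
  · omega
  intro h2
  obtain rfl : u = v := by omega
  by_cases e : u + 1 = n
  · obtain ⟨w, rfl⟩ : ∃ w, u = w + 3 := ⟨u - 3, by omega⟩
    exact hxu (h.last e.symm (fun c hc => u2 c (by omega)) xu)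
  rcases u with _ | u
  · have := h.mirror.last (v := n - 4) (by omega) (fun c hc x => by
      rw [h.wl_rev (by omega)]
      exact v3 _ (by omega) x) xu
    rw [h.wl_rev (by omega), show n - 1 - (n - 4 + 3) = 0 by omega] at this
    exact hxu this
  · exact hxu (h.mid (by omega) (u2 _ (by omega)) (v3 _ (by omega)) xu)

theorem core1 [Finite F] [Nonempty F] (hn : n ≤ 2) : nty r = 1 := by
  obtain ⟨x0⟩ := ‹Nonempty F›
  rw [nty, Nat.card_eq_one_iff_exists]
  refine ⟨Quotient.mk _ x0, ?_⟩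
  rintro ⟨y⟩
  refine Quotient.sound (h.typing (fun _ _ => True) (fun _ _ _ _ => trivial) ?_ trivial)
  intro x y l _ hl
  exact (h.all x y).ind (fun c _ => h.inv c) (P := fun y => per r l x = per r l y) rfl
    fun y c hc _ ih => ih.trans (h.per_step (by omega) (by have := hc.2; omega) y).symm

theorem lowdim [Finite F] [Nonempty F] :
    nty r = 1 ∨ (3 ≤ n ∧ 2 ≤ nty r ∧ (nty r = 2 → n = 3) ∧ (nty r = 4 → n ≠ 8)) := by
  by_cases h3 : n ≤ 2
  · exact Or.inl (h.core1 h3)
  have : Nonempty (Quotient (tySetoid r)) := ⟨Quotient.mk _ (Classical.arbitrary F)⟩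
  have : 0 < nty r := Nat.card_pos
  have := h.core2
  have := h.core8
  omega

end PS

open Pool.Agent.Lib.MP_7157e1_co in
theorem lowdim {k d : ℕ} (h : Attained k d) :
    k = 1 ∨ (3 ≤ d ∧ 2 ≤ k ∧ (k = 2 → d = 3) ∧ (k = 4 → d ≠ 8)) := by
  obtain ⟨V, h1, rfl⟩ := h
  have : Nonempty V := by
    rcases V.eq_empty_or_nonempty with rfl | ⟨x, hx⟩
    · simp at h1
    · exact ⟨⟨x, hx⟩⟩
  rw [← Subtype.range_coe (s := (V : Set (EuclideanSpace ℝ (Fin d))))] at h1 ⊢
  have hr := (rank_aff _).1 h1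
  rw [bridge, ← k_eq (one_mem_aff _) hr, ← nty_eq]
  exact @PS.lowdim _ _ (faceLat _) _ _ _ (poly_ps (one_mem_aff _) hr) _
    (Fl.nonempty (one_mem_aff _) hr)

end Pool.Agent.FlagOrb
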