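import Pool.Agent.Lib.Q7.Small43b

/-! Polytopes with a prescribed table of flag types, and towers over them. -/

namespace Pool.Agent.Lib.Q7.H77

open Module Function Finset Pool.Agent.Lib.MP_7157e1_co Pool.Agent.Lib.Q7.H43

variable {ι : Type} [Fintype ι] {E : Submodule ℝ (ι → ℝ)} {d : ℕ}

/-- a table of flag types -/
structure Tab (E : Submodule ℝ (ι → ℝ)) (d N : ℕ) (C : ℕ → ℕ → Set ι) (T : ℕ → ℕ → ℕ) :
    Prop where
  pos : IsF E ∅
  le : finrank ℝ E ≤ d + 1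
  ne : 0 < N
  face : ∀ m j, IsF E (C m j)
  lt : ∀ m < N, ∀ j ≤ d, C m j ⊂ C m (j + 1)
  top : ∀ m < N, ∀ j, d + 1 ≤ j → C m j = Set.univ
  step : ∀ m < N, ∀ i < d, T m i < N ∧ (((∀ j, j ≠ i + 1 → C (T m i) j = C m j) ∧
    C (T m i) (i + 1) ≠ C m (i + 1)) ∨ (T m i = m ∧ ∃ σ, MP_7157e1_co.Sym E σ ∧
      ∀ j, Set.MapsTo σ (C m j) (C m j) ↔ j ≠ i + 1))
  sing : ∀ i, IsF E {i}
  sep : ∀ Q : ℕ → ℕ → Prop, (∀ m < N, ∀ m' < N, Q m m' →
    (∀ j, (C m j).ncard = (C m' j).ncard) ∧ ∀ i < d, Q (T m i) (T m' i)) →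
    ∀ m < N, ∀ m' < N, Q m m' → m = m'

variable {N : ℕ} {C : ℕ → ℕ → Set ι} {T : ℕ → ℕ → ℕ}

theorem Tab.ex (h : Tab E d N C T) : ∃ rk : finrank ℝ E = d + 1, ∃ Φ : ℕ → Fl E d,
    (∀ m < N, (Φ m).1 = C m) ∧
    (∀ m < N, ∀ i < d, ∃ π : Lin E, la π (Φ (T m i)) = Fl.r i (Φ m)) ∧
    (∀ Ψ, ∃ m < N, ∃ π : Lin E, la π (Φ m) = Ψ) ∧
    (∀ m < N, ∀ m' < N, ∀ e, Fl.act e (Φ m) = Φ m' → m = m') ∧ (toSys h.pos rk).k = N := by
  have hd := (cr_chain h.le (h.face 0) (h.lt 0 h.ne)).1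
  have ex : ∀ m, ∃ Φ : Fl E d, m < N → Φ.1 = C m := by
    intro m
    by_cases k : m < N
    · refine ⟨⟨C m, fun j => ⟨h.face m j, ?_, ?_⟩⟩, fun _ => rfl⟩
      · by_cases e : j ≤ d + 1
        · exact (cr_chain h.le (h.face m) (h.lt m k)).2 j e
        · rw [h.top m k j (by omega), cr_univ]; omega
      · by_cases e : j ≤ d
        · exact (h.lt m k j e).1
        · rw [h.top m k (j + 1) (by omega)]
          exact Set.subset_univ _
    · exact ⟨(Fl.nonempty h.pos hd).some, fun k1 => absurd k1 k⟩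
  choose Φ hΦ using ex
  have st : ∀ m < N, ∀ i < d, ∃ π : Lin E, la π (Φ (T m i)) = Fl.r i (Φ m) := by
    intro m hm i hi
    obtain ⟨k0, ⟨k1, k2⟩ | ⟨k1, σ, hσ, k2⟩⟩ := h.step m hm i hi
    · refine ⟨⟨1, fun _ h => h⟩, (Fl.eq_or hi fun j hj => ?_).resolve_left fun k => k2 ?_⟩
      · change (Φ (T m i)).1 j = _
        rw [hΦ _ k0, hΦ _ hm, k1 j hj]
      · rw [← hΦ _ k0, ← hΦ _ hm, ← k]; rfl
    · rw [k1]
      let π : Lin E := ⟨Involutive.toPerm σ hσ.1, hσ.2⟩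
      have k : ∀ j, (la π (Φ m)).1 j = (Φ m).1 j ↔ j ≠ i + 1 := fun j => by
        rw [← k2, ← hσ.pre, ← hΦ m hm]
        exact Iff.rfl
      exact ⟨π, (Fl.eq_or hi fun j => (k j).2).resolve_left fun h2 =>
        (k (i + 1)).1 (by rw [h2]) rfl⟩
  have cov : ∀ Ψ, ∃ m < N, ∃ π : Lin E, la π (Φ m) = Ψ := by
    intro Ψ
    refine (Fl.conn (x := Φ 0) (y := Ψ) (Nat.zero_le d) le_rfl fun j hj => ?_).ind
      (fun Ψ => ∃ m < N, ∃ π : Lin E, la π (Φ m) = Ψ) ⟨0, h.ne, ⟨1, fun _ h => h⟩, rfl⟩ ?_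
    · rcases hj with hj | hj
      · rw [show j = 0 by omega, Fl.bot h.pos hd, Fl.bot h.pos hd]
      · rw [Fl.top _ hj, Fl.top _ hj]
    rintro i ⟨-, hi⟩ _ ⟨m, m1, π, rfl⟩
    obtain ⟨ρ, hρ⟩ := st m m1 i hi
    rw [← la_r, ← hρ]
    exact ⟨_, (h.step m m1 i hi).1, la_la π ρ _⟩
  have sp : ∀ m < N, ∀ m' < N, ∀ g ∈ (toSys h.pos hd).aut, g (Φ m) = Φ m' → m = m' := by
    intro m hm m' hm' g hg he
    refine h.sep (fun m m' => ∃ g ∈ (toSys h.pos hd).aut, g (Φ m) = Φ m') ?_ m hm m' hm'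
      ⟨g, hg, he⟩
    rintro m hm m' hm' ⟨g, hg, he⟩
    refine ⟨fun j => ?_, fun i hi => ?_⟩
    · obtain ⟨e, rfl⟩ := Fl.exists_iso h.pos hd hg
      rw [← hΦ m hm, ← hΦ m' hm', ← he]
      exact (ncard_iso h.sing h.pos e ⟨_, (Φ m).isF j⟩).symm
    · obtain ⟨π, hπ⟩ := st m hm i hi
      obtain ⟨ρ, hρ⟩ := st m' hm' i hi
      refine ⟨(Fl.act (permIso ρ.1 ρ.2))⁻¹ * g * Fl.act (permIso π.1 π.2), Subgroup.mul_mem _
        (Subgroup.mul_mem _ (Subgroup.inv_mem _ (Fl.act_r _)) hg) (Fl.act_r _), ?_⟩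
      rw [Equiv.Perm.mul_apply, Equiv.Perm.mul_apply, Equiv.Perm.inv_eq_iff_eq]
      change g (la π _) = la ρ _
      rw [hπ, hρ, ← he]
      exact hg i _
  refine ⟨hd, Φ, hΦ, st, cov, fun m hm m' hm' e => sp m hm m' hm' _ (Fl.act_r e), ?_⟩
  refine ((Nat.card_eq_of_bijective (fun m : Fin N => (Quotient.mk _ (Φ m) :
    MulAction.orbitRel.Quotient (toSys h.pos hd).aut (Fl E d))) ⟨fun m m' e => ?_, ?_⟩).symm).trans
    (Nat.card_fin N)
  · obtain ⟨g, hg⟩ := Quotient.exact e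
    exact Fin.ext (sp _ m'.2 _ m.2 g.1 g.2 hg).symm
  · rintro ⟨Ψ⟩
    obtain ⟨m, hm, π, rfl⟩ := cov Ψ
    exact ⟨⟨m, hm⟩, (Quotient.sound (s := MulAction.orbitRel (toSys h.pos hd).aut (Fl E d))
      (MulAction.orbitRel_apply.2 ⟨⟨_, Fl.act_r (permIso π.1 π.2)⟩, rfl⟩)).symm⟩

theorem Tab.att (h : Tab E d N C T) [Nonempty ι] : Attained N d := by
  obtain ⟨rk, -, -, -, -, -, hk⟩ := h.ex
  exact hk ▸ attained_sub h.pos rk

theorem Tab.tower (h : Tab E d N C T) (hd : 3 ≤ d) (hw : ∀ i, i + 1 < d → T 0 i = 0)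
    (hA : (C 0 d).ncard = d) (big : ∀ m < N, C m 1 ⊆ C 0 d ∨ d < deg E (C m 1)) (s : ℕ) :
    Attained (N + s * (d - 1)) d := by
  classical
  rcases Nat.eq_zero_or_pos s with rfl | h0
  · have : Nonempty ι := ⟨(Set.nonempty_of_ncard_ne_zero (s := C 0 d) (by omega)).some⟩
    simpa using h.att
  obtain ⟨rk, Φ, h1, st, h2, sp, hk⟩ := h.ex
  have hs := h.sing
  have hpos := h.pos
  let P : {G // IsF E G} → Prop := fun G => ∃ π : Lin E, (la π (Φ 0)).1 d = G.1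
  have nc0 : ∀ G, P G → cr E G.1 = 1 ∧ G.1.ncard = d := by
    rintro G ⟨π, e⟩
    rw [← e]
    refine ⟨by rw [Fl.cr]; omega, ?_⟩
    exact (ncard_iso hs hpos (permIso π.1 π.2) ⟨_, (Φ 0).isF d⟩).trans
      ((congrArg Set.ncard (congrFun (h1 0 h.ne) d)).trans hA)
  have ex : ∀ o : {G // P G}, ∃ v : Fin d → ι, Injective v ∧ Set.range v = o.1.1 := fun o => by
    let e := Finite.equivFinOfCardEq ((Nat.card_coe_set_eq _).trans (nc0 _ o.2).2)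
    exact ⟨fun j => e.symm j, Subtype.val_injective.comp e.symm.injective,
      (e.symm.surjective.range_comp _).trans Subtype.range_coe⟩
  choose v v1 v2 using ex
  have fac : ∀ o, IsF E (Set.range (v o)) := fun o => v2 o ▸ o.1.2
  have cr1 : ∀ o, cr E (Set.range (v o)) = 1 := fun o => v2 o ▸ (nc0 _ o.2).1
  have dist : ∀ o o', Set.range (v o) = Set.range (v o') → o = o' := fun o o' h =>
    Subtype.ext (Subtype.ext (by rw [← v2, ← v2, h]))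
  have orb : ∀ Ψ : Fl E d, P ⟨_, Ψ.isF d⟩ → ∃ π : Lin E, la π (Φ 0) = Ψ := by
    rintro Ψ ⟨π, e⟩
    refine (Fl.conn (x := la π (Φ 0)) (y := Ψ) (Nat.zero_le (d - 1)) (Nat.sub_le d 1)
      fun j hj => ?_).ind (fun Ψ => ∃ π : Lin E, la π (Φ 0) = Ψ) ⟨π, rfl⟩ ?_
    · rcases hj with hj | hj
      · rw [show j = 0 by omega, Fl.bot hpos rk, Fl.bot hpos rk]
      · by_cases k : j = d
        · rw [k]; exact e.symm
        · rw [Fl.top _ (by omega), Fl.top _ (by omega)]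
    rintro i ⟨-, hi⟩ _ ⟨π, rfl⟩
    obtain ⟨ρ, hρ⟩ := st 0 h.ne i (by omega)
    rw [hw i (by omega)] at hρ
    rw [← la_r, ← hρ]
    exact la_la π ρ _
  have hb : Bijective fun π : Lin E => (⟨la π (Φ 0), π, rfl⟩ : {Ψ : Fl E d | P ⟨_, Ψ.isF d⟩}) := by
    refine ⟨fun π ρ h => ?_, fun ⟨Ψ, h⟩ => ?_⟩
    · have h3 : la π (Φ 0) = la ρ (Φ 0) := congrArg Subtype.val h
      have h4 := (toSys hpos rk).free (g := (Fl.act (permIso ρ.1 ρ.2))⁻¹ * Fl.act (permIso π.1 π.2))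
        (Subgroup.mul_mem _ (Subgroup.inv_mem _ (Fl.act_r _)) (Fl.act_r _)) (Φ 0)
        (Equiv.Perm.inv_eq_iff_eq.2 h3)
      exact Subtype.ext (permIso_inj hs (act_inj hpos rk (inv_mul_eq_one.1 h4))).symm
    · obtain ⟨π, rfl⟩ := orb Ψ h
      exact ⟨π, rfl⟩
  have hΓ : Nat.card (Lin E) = {Ψ : Fl E d | P ⟨_, Ψ.isF d⟩}.ncard :=
    (Nat.card_eq_of_bijective _ hb).trans (Nat.card_coe_set_eq _)
  have act : ∀ (γ : Lin E) o, ∃ o', ∀ j, γ.1 (v o j) ∈ Set.range (v o') := fun γ o => by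
    obtain ⟨π, e⟩ := o.2
    obtain ⟨τ, hτ⟩ := la_la ⟨γ.1⁻¹, comp_inv_mem γ.2⟩ π (Φ 0)
    refine ⟨⟨⟨_, (la τ (Φ 0)).isF d⟩, τ, rfl⟩, fun j => ?_⟩
    rw [v2]
    change γ.1 (v o j) ∈ (la τ (Φ 0)).1 d
    rw [hτ, la_val, e]
    change γ.1.symm (γ.1 (v o j)) ∈ o.1.1
    rw [Equiv.symm_apply_apply, ← v2]
    exact ⟨j, rfl⟩
  choose α hα using act
  choose β hβ using hα
  have b1 : ∀ γ o, Bijective (β γ o) := fun γ o => Finite.injective_iff_bijective.1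
    fun j l h => v1 o (γ.1.injective (by rw [← hβ, ← hβ, h]))
  have a1 : ∀ γ, Bijective (α γ) := fun γ => Finite.injective_iff_bijective.1 fun o p h => by
    have key : ∀ o p, α γ o = α γ p → Set.range (v o) ⊆ Set.range (v p) := by
      rintro o p h _ ⟨j, rfl⟩
      obtain ⟨l, hl⟩ := (b1 γ p).2 (β γ o j)
      exact ⟨l, γ.1.injective (by rw [← hβ, ← hβ, h, hl])⟩
    exact dist o p ((key o p h).antisymm (key p o h.symm))
  let W : Tw d ι {G // P G} (Lin E) := ⟨E, v, Subtype.val, fun γ => Equiv.ofBijective _ (a1 γ),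
    fun γ o => Equiv.ofBijective _ (b1 γ o), hpos, rk, v1, fac, cr1, dist, fun γ => γ.2,
    fun γ o j => (hβ γ o j).symm, Subtype.val_injective, fun i hi => ⟨hs i, by
      obtain ⟨Ψ, l, -, -, e, -⟩ := Fl.exists_two hpos rk (le_refl (⟨{i}, hs i⟩ : {G // IsF E G}))
      have e1 : {i} = Ψ.1 l := congrArg Subtype.val e
      have hl : 1 ≤ l := Nat.pos_of_ne_zero fun k => by
        rw [k, Fl.bot hpos rk] at e1
        exact Set.singleton_ne_empty i e1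
      obtain ⟨z, hz, -⟩ := exists_of_cr (E := E) (A := ∅) (B := Ψ.1 1)
        (by rw [Fl.cr, cr_empty, rk]; omega)
      obtain rfl : z = i := e1.ge (Ψ.mono hl hz)
      obtain ⟨m, m1, π, rfl⟩ := h2 Ψ
      rcases big m m1 with k | k
      · obtain ⟨j, hj⟩ := (v2 ⟨⟨_, (la π (Φ 0)).isF d⟩, π, rfl⟩).ge (show z ∈ (la π (Φ 0)).1 d by
          rw [la_val, h1 _ h.ne]
          rw [la_val, h1 _ m1] at hz
          exact k hz)
        exact absurd hj (hi _ _)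
      · rw [← h1 m m1, ← deg_iso (permIso π.1 π.2) ⟨_, (Φ m).isF 1⟩] at k
        exact k.trans_le (deg_anti (Set.singleton_subset_iff.2 hz))⟩⟩
  have c1 : Nat.card (Lin E) = Fintype.card {G // P G} * d.factorial := by
    have := card_facets hpos rk (univ.filter P) fun G hG => cr_one.2 (nc0 _ (mem_filter.1 hG).2).1
    rw [sum_congr rfl fun G hG => nc_simplex d G (fun S hS => W.sub_isF ⟨G, (mem_filter.1 hG).2⟩
      (hS.trans (v2 ⟨G, (mem_filter.1 hG).2⟩).ge)) (nc0 _ (mem_filter.1 hG).2).2, sum_const,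
      smul_eq_mul, ← Fintype.card_subtype] at this
    rw [hΓ, ← this]
    exact congrArg Set.ncard (Set.ext fun Ψ =>
      ⟨fun h => mem_filter.2 ⟨mem_univ _, h⟩, fun h => (mem_filter.1 h).2⟩)
  have c2 : Nat.card (Fl E d) = N * Nat.card (Lin E) := by
    rw [← hk]
    refine (k_mul hpos rk _ (Φ 0) (fun e => ?_) (fun π : Lin E => permIso π.1 π.2)
      (fun π ρ h => Subtype.ext (permIso_inj hs h)) hΓ.ge).symm
    obtain ⟨m, m1, π, he⟩ := h2 (Fl.act e (Φ 0))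
    obtain rfl : 0 = m := sp 0 h.ne m m1 (e.trans (permIso π.1 π.2).symm) (by
      change (Fl.act (permIso π.1 π.2)).symm (Fl.act e (Φ 0)) = _
      rw [← he]
      exact Equiv.symm_apply_apply _ _)
    exact ⟨π, by rw [he]⟩
  have := H43.tower hd (⟨⟨_, (Φ 0).isF d⟩, ⟨1, fun _ h => h⟩, rfl⟩ : {G // P G}) c1 ((s - 1) / 2) ι
    W N c2
  rcases (show s = 2 * ((s - 1) / 2) + 1 ∨ s = 2 * ((s - 1) / 2) + 2 by omega) with e | e <;> rw [e]
  exacts [this.1, this.2]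

end Pool.Agent.Lib.Q7.H77
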