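import Pool.Agent.Lib.F77.EightC

/-! A checker for tables of flag types of polytopes given by integer vectors. -/

namespace Pool.Agent.Lib.Q7.H77

open Module Function Finset Pool.Agent.Lib.MP_7157e1_co Pool.Agent.Lib.Q7.H43
  Pool.Agent.Lib.Q7.H43.Chk

/-- an entry of a table -/
def g2 (M : List (List ℕ)) (D m j : ℕ) : ℕ := (M.getD m []).getD j D

/-- a code for a list of numbers -/
def cd (l : List ℕ) : ℕ := l.foldr (fun x s => (s * 37 + x + 1) % 9973) 0

/-- the data of a table: functionals, flags, neighbours, walls, stabilisers, codes, sizes -/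
structure Dat : Type where
  C : List (List ℤ)
  R : List (List ℕ)
  T : List (List ℕ)
  W : List (List ℕ)
  J : List (List ℕ)
  H : List (List ℕ)
  n : List ℕ
  P : List (ℕ × ℕ)
  V : List ℕ

namespace Dat

variable (D : Dat) (d N K : ℕ)

/-- index of a face of a flag -/
def ix (m j : ℕ) : ℕ := g2 D.R D.C.length m j

/-- conditions on a move -/
def Mv (m i : ℕ) : Prop :=
  g2 D.T 0 m i < N ∧ (((∀ j < d + 1, j ≠ i + 1 → D.ix (g2 D.T 0 m i) j = D.ix m j) ∧
    (D.n.getD (D.ix (g2 D.T 0 m i) (i + 1)) 0 ≠ D.n.getD (D.ix m (i + 1)) 0 ∨ ∃ g < d,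
      ¬ (g ∈ D.J.getD (D.ix (g2 D.T 0 m i) (i + 1)) [] ↔ g ∈ D.J.getD (D.ix m (i + 1)) []))) ∨
    (g2 D.T 0 m i = m ∧ g2 D.W 0 m i < d ∧
      ∀ j < d + 1, g2 D.W 0 m i ∈ D.J.getD (D.ix m j) [] ↔ j ≠ i + 1))

instance (m i : ℕ) : Decidable (D.Mv d N m i) := by unfold Mv; infer_instance

/-- conditions on a row -/
def Row (m : ℕ) : Prop :=
  (D.R.getD m []).length = d + 1 ∧
    (∀ j < d + 1, D.ix m j < D.C.length ∧ (D.ix m j, D.ix m (j + 1)) ∈ D.P) ∧
    g2 D.H 0 0 m = cd ((List.range (d + 1)).map fun j => D.n.getD (D.ix m j) 0) ∧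
    (∀ k < K, g2 D.H 0 (k + 1) m =
      cd (g2 D.H 0 k m :: (List.range d).map fun i => g2 D.H 0 k (g2 D.T 0 m i))) ∧
    (∀ m' < N, g2 D.H 0 K m = g2 D.H 0 K m' → m = m') ∧ ∀ i < d, D.Mv d N m i

instance (m : ℕ) : Decidable (D.Row d N K m) := by unfold Row; infer_instance

/-- conditions on a face -/
def Fc (L : List (List ℤ)) (σ : ℕ → List ℤ → List ℤ) (a : ℕ) : Prop :=
  (∀ y ∈ L, 0 ≤ ev (D.C.getD a []) y) ∧ (ZL L (D.C.getD a [])).dedup.length = D.n.getD a 0 ∧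
    ∀ g < d, Mp L (σ g) (D.C.getD a []) ↔ g ∈ D.J.getD a []

instance (L σ a) : Decidable (D.Fc d L σ a) := by unfold Fc; infer_instance

variable {D d N K} {L : List (List ℤ)} {σ : ℕ → List ℤ → List ℤ}

theorem tab (ρ : List ℤ) (h0 : ∀ y ∈ L, y.length = d + 1) (lin : ∀ i < d, Li L d (σ i))
    (inv : ∀ i < d, ∀ y ∈ L, σ i y ∈ L ∧ σ i (σ i y) = y) (hN : 0 < N)
    (h1 : ∀ y ∈ L, ev (D.C.getD 0 []) y ≠ 0) (hF : ∀ a < D.C.length, D.Fc d L σ a)
    (hP : ∀ p ∈ D.P, Lt L (D.C.getD p.1 []) (D.C.getD p.2 []))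
    (hs : ∀ y ∈ L, 0 ≤ ev ρ y ∧
      ((∃ a ∈ D.V, ev (D.C.getD a []) y = 0) ∨ ∃ i < d, ev ρ (σ i y) < ev ρ y))
    (hV : ∀ a ∈ D.V, a < D.C.length ∧ D.n.getD a 0 = 1) (hR : ∀ m < N, D.Row d N K m) :
    Tab (EE L d) d N (fun m j => Z L (D.C.getD (D.ix m j) [])) (g2 D.T 0) := by
  have fa : ∀ a, IsF (EE L d) (Z L (D.C.getD a [])) := fun a => by
    refine isF h0 ?_
    by_cases e : a < D.C.length
    · exact (hF a e).1
    · rw [List.getD_eq_default _ _ (not_lt.1 e)]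
      exact fun _ _ => le_rfl
  have tp : ∀ m < N, ∀ j, d + 1 ≤ j → Z L (D.C.getD (D.ix m j) []) = Set.univ := fun m hm j hj => by
    rw [ix, g2, List.getD_eq_default _ _ ((hR m hm).1.le.trans hj), List.getD_eq_default _ _ le_rfl]
    exact Set.eq_univ_of_forall fun _ => rfl
  have nc : ∀ a < D.C.length, (Z L (D.C.getD a [])).ncard = D.n.getD a 0 := fun a ha =>
    (ncard_Z _).trans (hF a ha).2.1
  have lt : ∀ m < N, ∀ j < d + 1, D.ix m j < D.C.length := fun m hm j hj =>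
    ((hR m hm).2.1 j hj).1
  refine ⟨?_, rank_le, hN, fun m j => fa _, fun m hm j hj =>
    (hP _ ((hR m hm).2.1 j (by omega)).2).lt, tp, fun m hm i hi => ?_, fun y => ?_,
    fun Q hQ m hm m' hm' q => ?_⟩
  · convert fa 0
    exact (Set.eq_empty_of_forall_notMem fun y : {y // y ∈ L} => h1 y.1 y.2).symm
  · obtain ⟨k0, ⟨k1, k2⟩ | ⟨k1, k2, k3⟩⟩ := (hR m hm).2.2.2.2.2 i hi
    · refine ⟨k0, Or.inl ⟨fun j hj => ?_, fun e => ?_⟩⟩
      · by_cases c : j < d + 1
        · simp only [k1 j c hj]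
        · simp only [tp _ k0 j (by omega), tp _ hm j (by omega)]
      · have a1 := lt _ k0 (i + 1) (by omega)
        have a2 := lt _ hm (i + 1) (by omega)
        rcases k2 with k2 | ⟨g, hg, k2⟩
        · exact k2 (by rw [← nc _ a1, ← nc _ a2]; exact congrArg Set.ncard e)
        · refine k2 ?_
          rw [← (hF _ a1).2.2 g hg, ← (hF _ a2).2.2 g hg, ← mp_iff (inv g hg), ← mp_iff (inv g hg)]
          rw [e]
    · refine ⟨k0, Or.inr ⟨k1, _, (lin _ k2).sym (inv _ k2), fun j => ?_⟩⟩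
      by_cases c : j < d + 1
      · exact ((mp_iff (inv _ k2) _).trans ((hF _ (lt m hm j c)).2.2 _ k2)).trans (k3 j c)
      · simp only [tp _ hm j (by omega)]
        exact iff_of_true (Set.mapsTo_univ _ _) (by omega)
  · induction hn : (ev ρ y.1).toNat using Nat.strong_induction_on generalizing y with
    | _ n ih =>
    rcases (hs y.1 y.2).2 with ⟨a, ha, k⟩ | ⟨i, hi, k⟩
    · obtain ⟨v, hv⟩ := Set.ncard_eq_one.1 ((nc a (hV a ha).1).trans (hV a ha).2)
      obtain rfl : y = v := hv.le k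
      exact hv ▸ fa a
    · have k1 := (lin i hi).sym (inv i hi)
      have k2 := (hs _ (inv i hi y.1 y.2).1).1
      convert (ih (ev ρ (σ i y.1)).toNat (by omega) ⟨σ i y.1, (inv i hi y.1 y.2).1⟩ rfl).pre k1.2
      exact Set.ext fun z => (Involutive.injective (f := fun y : {y // y ∈ L} =>
        (⟨σ i y.1, (inv i hi y.1 y.2).1⟩ : {y // y ∈ L})) k1.1).eq_iff.symm
  · have key : ∀ k ≤ K, ∀ m < N, ∀ m' < N, Q m m' → g2 D.H 0 k m = g2 D.H 0 k m' := by
      intro k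
      induction k with
      | zero =>
        intro _ m hm m' hm' q
        rw [(hR m hm).2.2.1, (hR m' hm').2.2.1]
        refine congrArg cd (List.map_congr_left fun j hj => ?_)
        have hj := List.mem_range.1 hj
        rw [← nc _ (lt m hm j hj), ← nc _ (lt m' hm' j hj)]
        exact (hQ m hm m' hm' q).1 j
      | succ k ih =>
        intro hk m hm m' hm' q
        rw [(hR m hm).2.2.2.1 k hk, (hR m' hm').2.2.2.1 k hk, ih (by omega) m hm m' hm' q]
        refine congrArg (fun l => cd (_ :: l)) (List.map_congr_left fun i hi => ?_)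
        have hi := List.mem_range.1 hi
        exact ih (by omega) _ ((hR m hm).2.2.2.2.2 i hi).1 _ ((hR m' hm').2.2.2.2.2 i hi).1
          ((hQ m hm m' hm' q).2 i hi)
    exact (hR m hm).2.2.2.2.1 m' hm' (key K le_rfl m hm m' hm' q)

end Dat

theorem deg_big' {d : ℕ} {L : List (List ℤ)} {σ : ℕ → List ℤ → List ℤ}
    (lin : ∀ i < d, Li L d (σ i)) (inv : ∀ i < d, ∀ y ∈ L, σ i y ∈ L ∧ σ i (σ i y) = y)
    {c : List ℤ} (f : IsF (EE L d) (Z L c)) (hc : cr (EE L d) (Z L c) = 1) (a b : List ℤ)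
    (w : List (List ℕ)) (hw : ∀ k < d + 1, (∀ i ∈ w.getD k [], i < d) ∧
      (∀ y ∈ ZL L a, ev c ((w.getD k []).foldr σ y) = 0) ∧ ∀ l < k, ∃ y ∈ ZL L b,
        ¬ (ev c ((w.getD k []).foldr σ y) = 0 ↔ ev c ((w.getD l []).foldr σ y) = 0)) :
    d < deg (EE L d) (Z L a) := by
  have ex : ∀ u : List ℕ, (∀ i ∈ u, i < d) → ∃ π : Lin (EE L d), ∀ y, (π.1 y).1 = u.foldr σ y.1 := by
    intro u
    induction u with
    | nil => exact fun _ => ⟨⟨1, fun _ h => h⟩, fun _ => rfl⟩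
    | cons i u ih =>
      intro hu
      obtain ⟨π, hπ⟩ := ih fun j hj => hu j (List.mem_cons_of_mem _ hj)
      have hi := hu i List.mem_cons_self
      have s := (lin i hi).sym (inv i hi)
      exact ⟨⟨Involutive.toPerm (fun y : {y // y ∈ L} =>
        (⟨σ i y.1, (inv i hi y.1 y.2).1⟩ : {y // y ∈ L})) s.1 * π.1, fun f hf => π.2 _ (s.2 f hf)⟩,
        fun y => congrArg (σ i) (hπ y)⟩
  have := Set.ncard_le_ncard_of_injOn (s := Set.Iic d)
    (t := {H | IsF (EE L d) H ∧ cr (EE L d) H = 1 ∧ Z L a ⊆ H})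
    (fun k => {y : {y // y ∈ L} | ev c ((w.getD k []).foldr σ y.1) = 0}) (fun k hk => by
      obtain ⟨k1, k2, -⟩ := hw k (Nat.lt_succ_of_le hk)
      obtain ⟨π, hπ⟩ := ex _ k1
      have e : {y : {y // y ∈ L} | ev c ((w.getD k []).foldr σ y.1) = 0} =
          (permIso π.1 π.2 ⟨_, f⟩).1 := Set.ext fun y => by
        change _ ↔ ev c (π.1 y).1 = 0
        rw [hπ]; rfl
      refine ⟨e ▸ (permIso π.1 π.2 ⟨_, f⟩).2, by rw [e, cr_iso, hc], fun y hy => ?_⟩
      exact k2 y.1 (mem_ZL.2 ⟨y.2, hy⟩)) (fun k hk l hl e => by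
      have key : ∀ k ≤ d, ∀ l < k, {y : {y // y ∈ L} | ev c ((w.getD k []).foldr σ y.1) = 0} ≠
          {y : {y // y ∈ L} | ev c ((w.getD l []).foldr σ y.1) = 0} := fun k hk l hl e => by
        obtain ⟨y, y1, y2⟩ := (hw k (by omega)).2.2 l hl
        exact y2 (Set.ext_iff.1 e ⟨y, (mem_ZL.1 y1).1⟩)
      rcases lt_trichotomy k l with h | h | h
      exacts [absurd e.symm (key l hl k h), h, absurd e (key k hk l h)]) (Set.toFinite _)
  rwa [Set.ncard_Iic_nat] at this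

end Pool.Agent.Lib.Q7.H77
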