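import Pool.Agent.Lib.F77.EightD

/-! A polytope of dimension eight with 46 flag orbits and the towers over it. -/

namespace Pool.Agent.Lib.Q7.H77

open Module Function Finset Pool.Agent.Lib.MP_7157e1_co Pool.Agent.Lib.Q7.H43
  Pool.Agent.Lib.Q7.H43.Chk

open Tr in
/-- the vectors with entries `±10, ±1, …, ±1` and an even number of minus signs, and the vectors
with entries `±10, ±5, 0, …, 0`, as a search tree -/
noncomputable def tq (n : ℕ) : Bool → Bool → Bool → Bool → Bool → Tr :=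
  Nat.rec (fun a b u p f => cond (u && ((a && !p) || (b && f))) leaf nil) (fun _ g a b u p f =>
    (fun s : Tr => (fun t : Tr => cond a
      (node 1 (g true false u p false) (node (-1) (g true false u (!p) false) t)) t)
      (cond b (node 0 (g false true u false f) (cond f s
        (node 5 (g false true u false true) (node (-5) (g false true u false true) s)))) s))
      (cond u nil (node 10 (g a b true p f) (node (-10) (g a b true (!p) f) nil)))) n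

/-- the vertices of the first polytope -/
noncomputable def tA : Tr := .node 1 (tq 8 true true false false false) .nil

/-- generators of the group of the first polytope -/
def sA (i : ℕ) : List ℤ → List ℤ := if i = 7 then ap [[1], [0,1], [0,0,1], [0,0,0,1], [0,0,0,0,1],
  [0,0,0,0,0,1], [0,0,0,0,0,0,1], [0,0,0,0,0,0,0,0,-1], [0,0,0,0,0,0,0,-1]] else sw (i + 1)

/-- the table of the first polytope -/
def dA : Dat where
  C := [[1,0,0,0,0,0,0,0,0],[27,-2,-1,-1,-1,-1,-1,-1,-1],[25,-2,-1,0,0,0,0,0,0],[62,-4,-4,-3,-3,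
    -3,-3,-3,-3],[15,-1,-1,0,0,0,0,0,0],[25,-2,-1,-1,0,0,0,0,0],[55,-4,-3,-2,-2,-2,-2,-2,-2],[46,
    -3,-3,-3,-2,-2,-2,-2,-2],[25,-2,-1,-1,-1,0,0,0,0],[85,-6,-5,-5,-3,-3,-3,-3,-3],[45,-3,-3,-2,
    -2,-2,-2,-2,-2],[15,-1,-1,-1,0,0,0,0,0],[47,-3,-3,-3,-3,-2,-2,-2,-2],[25,-2,-1,-1,-1,-1,0,0,
    0],[40,-3,-2,-2,-2,-1,-1,-1,-1],[75,-5,-5,-5,-3,-3,-3,-3,-3],[15,-1,-1,-1,-1,0,0,0,0],[31,-2,
    -2,-2,-2,-2,-1,-1,-1],[55,-4,-3,-3,-3,-3,-1,-1,-1],[30,-2,-2,-2,-2,-1,-1,-1,-1],[15,-1,-1,-1,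
    -1,-1,0,0,0],[32,-2,-2,-2,-2,-2,-2,-1,-1],[25,-2,-1,-1,-1,-1,-1,0,0],[45,-3,-3,-3,-3,-3,-1,-1,
    -1],[16,-1,-1,-1,-1,-1,-1,-1,0],[25,-2,-1,-1,-1,-1,-1,-1,1],[15,-1,-1,-1,-1,-1,-1,0,0],[17,-1,
    -1,-1,-1,-1,-1,-1,-1],[10,-1,0,0,0,0,0,0,0],[15,-1,-1,-1,-1,-1,-1,-1,1]]
  R := [[0,1,3,7,12,17,21,24,27],[0,1,3,7,12,17,21,24,29],[0,1,3,7,12,17,21,26,29],[0,1,3,7,12,17,
    23,26,29],[0,1,3,7,12,19,23,26,29],[0,1,3,7,15,19,23,26,29],[0,1,3,10,15,19,23,26,29],[0,1,6,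
    9,14,18,22,25,28],[0,1,6,9,14,18,22,25,29],[0,1,6,9,14,18,22,26,29],[0,1,6,9,14,18,23,26,29],
    [0,1,6,9,14,19,23,26,29],[0,1,6,9,15,19,23,26,29],[0,1,6,10,15,19,23,26,29],[0,2,4,10,15,19,
    23,26,29],[0,2,4,11,15,19,23,26,29],[0,2,4,11,16,19,23,26,29],[0,2,4,11,16,20,23,26,29],[0,2,
    5,8,13,18,22,25,28],[0,2,5,8,13,18,22,25,29],[0,2,5,8,13,18,22,26,29],[0,2,5,8,13,18,23,26,
    29],[0,2,5,8,13,20,23,26,29],[0,2,5,8,14,18,22,25,28],[0,2,5,8,14,18,22,25,29],[0,2,5,8,14,18,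
    22,26,29],[0,2,5,8,14,18,23,26,29],[0,2,5,8,14,19,23,26,29],[0,2,5,8,16,19,23,26,29],[0,2,5,8,
    16,20,23,26,29],[0,2,5,9,14,18,22,25,28],[0,2,5,9,14,18,22,25,29],[0,2,5,9,14,18,22,26,29],[0,
    2,5,9,14,18,23,26,29],[0,2,5,9,14,19,23,26,29],[0,2,5,9,15,19,23,26,29],[0,2,5,11,15,19,23,26,
    29],[0,2,5,11,16,19,23,26,29],[0,2,5,11,16,20,23,26,29],[0,2,6,9,14,18,22,25,28],[0,2,6,9,14,
    18,22,25,29],[0,2,6,9,14,18,22,26,29],[0,2,6,9,14,18,23,26,29],[0,2,6,9,14,19,23,26,29],[0,2,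
    6,9,15,19,23,26,29],[0,2,6,10,15,19,23,26,29]]
  T := [[0,0,0,0,0,0,0,1],[1,1,1,1,1,1,2,0],[2,2,2,2,2,3,1,2],[3,3,3,3,4,2,3,3],[4,4,4,5,3,4,4,4],
    [5,5,6,4,5,5,5,5],[6,13,5,6,6,6,6,6],[39,7,7,7,7,7,7,8],[40,8,8,8,8,8,9,7],[41,9,9,9,9,10,8,
    9],[42,10,10,10,11,9,10,10],[43,11,11,12,10,11,11,11],[44,12,13,11,12,12,12,12],[45,6,12,13,
    13,13,13,13],[14,45,15,14,14,14,14,14],[15,36,14,16,15,15,15,15],[16,37,16,15,17,16,16,16],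
    [17,38,17,17,16,17,17,17],[18,18,18,23,18,18,18,19],[19,19,19,24,19,19,20,18],[20,20,20,25,20,
    21,19,20],[21,21,21,26,22,20,21,21],[22,22,22,29,21,22,22,22],[23,23,30,18,23,23,23,24],[24,
    24,31,19,24,24,25,23],[25,25,32,20,25,26,24,25],[26,26,33,21,27,25,26,26],[27,27,34,28,26,27,
    27,27],[28,28,37,27,29,28,28,28],[29,29,38,22,28,29,29,29],[30,39,23,30,30,30,30,31],[31,40,
    24,31,31,31,32,30],[32,41,25,32,32,33,31,32],[33,42,26,33,34,32,33,33],[34,43,27,35,33,34,34,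
    34],[35,44,36,34,35,35,35,35],[36,15,35,37,36,36,36,36],[37,16,28,36,38,37,37,37],[38,17,29,
    38,37,38,38,38],[7,30,39,39,39,39,39,40],[8,31,40,40,40,40,41,39],[9,32,41,41,41,42,40,41],
    [10,33,42,42,43,41,42,42],[11,34,43,44,42,43,43,43],[12,35,45,43,44,44,44,44],[13,14,44,45,45,
    45,45,45]]
  W := [[0,1,2,3,4,5,6,0],[0,1,2,3,4,5,0,0],[0,1,2,3,4,0,0,6],[0,1,2,3,0,0,5,6],[0,1,2,0,0,4,5,6],
    [0,1,0,0,3,4,5,6],[0,0,0,2,3,4,5,6],[0,1,2,3,4,5,6,0],[0,1,2,3,4,5,0,0],[0,1,2,3,4,0,0,6],[0,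
    1,2,3,0,0,5,6],[0,1,2,0,0,4,5,6],[0,1,0,0,3,4,5,6],[0,0,0,2,3,4,5,6],[0,0,0,2,3,4,5,6],[0,0,0,
    0,3,4,5,6],[0,0,2,0,0,4,5,6],[0,0,2,3,0,7,5,6],[1,2,3,0,7,5,6,0],[1,2,3,0,7,5,0,0],[1,2,3,0,7,
    0,0,6],[1,2,3,0,0,0,5,6],[1,2,3,0,0,7,5,6],[1,2,0,0,4,5,6,0],[1,2,0,0,4,5,0,0],[1,2,0,0,4,0,0,
    6],[1,2,0,0,0,0,5,6],[1,2,0,0,0,4,5,6],[1,2,0,0,0,4,5,6],[1,2,0,0,0,7,5,6],[1,0,0,3,4,5,6,0],
    [1,0,0,3,4,5,0,0],[1,0,0,3,4,0,0,6],[1,0,0,3,0,0,5,6],[1,0,0,0,0,4,5,6],[1,0,0,0,3,4,5,6],[1,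
    0,0,0,3,4,5,6],[1,0,0,0,0,4,5,6],[1,0,0,3,0,7,5,6],[0,0,2,3,4,5,6,0],[0,0,2,3,4,5,0,0],[0,0,2,
    3,4,0,0,6],[0,0,2,3,0,0,5,6],[0,0,2,0,0,4,5,6],[0,0,0,0,3,4,5,6],[0,0,0,2,3,4,5,6]]
  J := [[0,1,2,3,4,5,6,7],[1,2,3,4,5,6],[2,3,4,5,6,7],[0,2,3,4,5,6],[0,2,3,4,5,6,7],[1,3,4,5,6,7],
    [2,3,4,5,6],[0,1,3,4,5,6],[1,2,4,5,6,7],[1,3,4,5,6],[0,2,3,4,5,6],[0,1,3,4,5,6,7],[0,1,2,4,5,
    6],[1,2,3,5,6,7],[1,2,4,5,6],[0,1,3,4,5,6],[0,1,2,4,5,6,7],[0,1,2,3,5,6],[1,2,3,5,6],[0,1,2,4,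
    5,6],[0,1,2,3,5,6,7],[0,1,2,3,4,6],[1,2,3,4,6,7],[0,1,2,3,5,6],[0,1,2,3,4,5],[1,2,3,4,5,7],[0,
    1,2,3,4,6,7],[0,1,2,3,4,5,6],[1,2,3,4,5,6,7],[0,1,2,3,4,5,7]]
  H := [[2784,2277,1767,1644,266,6424,7212,7452,4793,4385,1644,266,6424,7212,7212,8788,6499,3278,
    7452,4793,4385,1644,7018,7452,4793,4385,1644,266,4135,914,7452,4793,4385,1644,266,6424,8788,
    6499,3278,7452,4793,4385,1644,266,6424,7212],[7105,9402,8842,1758,466,1680,7132,1973,9226,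
    8487,4231,466,1680,7132,5013,9718,1794,1345,1973,9226,8487,2468,8227,1973,9226,8487,4231,1698,
    4961,3280,1973,9226,8487,4231,466,6916,7100,3913,3464,1973,9226,8487,4231,466,1680,7132],
    [3212,8309,7288,6009,2762,6386,1813,4769,5254,4453,4844,8472,6386,1813,3572,7806,1688,8503,
    4769,5254,6418,898,3333,4769,5254,4453,8890,6499,5765,8626,4769,5254,4453,4844,6039,782,4178,
    8701,7976,4769,5254,4453,4844,8472,3883,3045],[1038,2696,3862,9312,3272,5267,4451,6639,8194,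
    2308,1525,4931,3884,170,9869,1216,3793,6796,6639,5206,3605,5050,3151,6639,8194,65,2771,9807,
    1375,3656,6639,8194,2308,385,8992,6943,277,3867,6820,6639,8194,2308,1525,109,1927,5341],[4724,
    4856,4866,6383,6618,2022,1116,6199,6860,2901,2967,1065,7274,6138,4779,1403,8350,3138,5806,
    4624,480,8554,5782,6199,4227,312,6321,4703,7315,134,6199,6860,8018,4106,5509,6980,1686,6954,
    946,6199,6860,2901,6500,7375,3145,7095],[6405,3735,4051,1574,1885,4090,1826,2247,862,5211,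
    7149,7325,158,1854,8222,5198,8097,4506,4959,378,476,4683,6198,2039,3459,5675,3937,9950,1112,
    9447,2247,5664,4282,7052,8690,453,3682,2972,2006,2247,862,3788,7383,9591,517,8687],[2419,45,
    7281,6071,4947,8702,4618,274,6713,3239,1432,7996,3825,7868,1878,3620,9338,3648,7003,9325,8604,
    1599,165,7256,6577,2560,7036,2860,1296,9601,9927,9059,8227,3501,6100,5941,9698,8980,6327,274,
    4959,148,9905,9263,4729,7220],[6168,5707,684,2393,9466,9737,7796,7151,9555,6432,4238,3317,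
    1446,7153,1337,8207,1041,9708,7324,9161,9169,4947,8028,2430,9151,9134,1914,4295,6677,6874,
    9826,495,2821,6447,5152,161,1704,6444,4768,8954,2708,9127,1223,8073,4785,5598]]
  n := [0,1,1,2,2,2,2,3,3,3,4,6,4,4,4,9,12,5,5,16,20,6,7,25,7,14,42,8,78,112]
  P := [(0,1),(0,2),(1,3),(1,6),(2,4),(2,5),(2,6),(3,7),(3,10),(4,10),(4,11),(5,8),(5,9),(5,11),
    (6,9),(6,10),(7,12),(7,15),(8,13),(8,14),(8,16),(9,14),(9,15),(10,15),(11,15),(11,16),(12,17),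
    (12,19),(13,18),(13,20),(14,18),(14,19),(15,19),(16,19),(16,20),(17,21),(17,23),(18,22),(18,
    23),(19,23),(20,23),(21,24),(21,26),(22,25),(22,26),(23,26),(24,27),(24,29),(25,28),(25,29),
    (26,29),(27,30),(28,30),(29,30)]
  V := [1,2]

theorem tA_len : ∀ y ∈ tA.li, y.length = 8 + 1 := by decide +kernel

theorem sA_li : ∀ i < 8, Li tA.li 8 (sA i) := fun i hi => by
  unfold sA
  split_ifs
  exacts [li_ap tA_len _, li_sw tA_len (by omega)]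

theorem sA_inv : ∀ i < 8, ∀ y ∈ tA.li, sA i y ∈ tA.li ∧ sA i (sA i y) = y := fun i hi y hy => by
  have : ∀ y ∈ tA.li, tA.has (sA i y) = true ∧ sA i (sA i y) = y := by
    interval_cases i <;> decide +kernel
  exact ⟨tA.mem _ (this y hy).1, (this y hy).2⟩

theorem tA_face : ∀ a < dA.C.length, dA.Fc 8 tA.li sA a := by decide +kernel

theorem tA_lt : ∀ p ∈ dA.P, Lt tA.li (dA.C.getD p.1 []) (dA.C.getD p.2 []) := by decide +kernel

theorem tA_row : ∀ m < 46, dA.Row 8 46 7 m := by decide +kernel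

theorem tabA : Tab (EE tA.li 8) 8 46 (fun m j => Z tA.li (dA.C.getD (dA.ix m j) [])) (g2 dA.T 0) :=
  Dat.tab (K := 7) [100, -7, -6, -5, -4, -3, -2, -1, 0] tA_len sA_li sA_inv (by omega)
    (by decide +kernel) tA_face tA_lt (by decide +kernel) (by decide +kernel) tA_row

theorem att46 (s : ℕ) : Attained (46 + s * 7) 8 := by
  refine tabA.tower (by omega) (fun i hi => ?_) ((ncard_Z _).trans (by decide +kernel))
    (fun m hm => ?_) s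
  · have : ∀ i < 7, g2 dA.T 0 0 i = 0 := by decide +kernel
    exact this i (by omega)
  have : ∀ m < 46, dA.ix m 1 = 1 ∨ dA.ix m 1 = 2 := by decide +kernel
  rcases this m hm with e | e <;> simp only [e]
  · exact Or.inl (Lt.lt (by decide +kernel)).1
  · exact Or.inr (deg_big' sA_li sA_inv (tabA.face 1 8)
      ((cr_chain tabA.le (tabA.face 1) (tabA.lt 1 (by omega))).2 8 (by omega)) _ (dA.C.getD 28 [])
      [[], [6], [6, 5], [6, 5, 4], [6, 5, 7], [6, 5, 4, 3], [6, 5, 4, 7], [6, 5, 4, 3, 2],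
        [6, 5, 4, 3, 7]] (by decide +kernel))

end Pool.Agent.Lib.Q7.H77
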