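import Pool.Agent.Lib.F77.EightD
import Pool.Agent.Lib.Q7.Small43c

/-! The prism over the Gosset polytope with 126 vertices. -/

namespace Pool.Agent.Lib.Q7.H77

open Module Function Finset Pool.Agent.Lib.MP_7157e1_co Pool.Agent.Lib.Q7.H43
  Pool.Agent.Lib.Q7.H43.Chk

/-- the vertices of the prism -/
noncomputable def tB : Tr :=
  Tr.rec .nil (.node 1 .leaf (.node (-1) .leaf .nil)) (fun v _ _ p q => .node v p q) g231T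

/-- generators of the group of the prism -/
def sB (i : ℕ) : List ℤ → List ℤ := if i = 6 then ap [[1], [0,1], [0,0,1], [0,0,0,1], [0,0,0,0,1],
  [0,0,0,0,0,1], [0,0,0,0,0,0,1], [0,0,0,0,0,0,0,1], [0,0,0,0,0,0,0,0,-1]]
  else gen 8 (fun i => i + 1) i

/-- the table of the prism -/
def dB : Dat where
  C := [[3,-1,-1,-1,-1,-1,-1,-1,0],[4,-2,-1,-1,-1,-1,-1,-1,-2],[2,-1,-1,0,0,0,0,0,-1],[1,-1,0,0,0,
    0,0,0,0],[3,-1,-1,-1,0,0,0,0,-2],[1,-1,-1,1,1,1,1,1,0],[2,0,0,0,0,1,1,1,-2],[0,0,0,0,1,1,1,1,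
    0],[2,0,0,0,0,0,1,1,-2],[3,-1,-1,-1,-1,0,0,0,-2],[-1,1,1,1,1,2,2,2,0],[2,0,0,0,0,0,0,1,-2],
    [-1,1,1,1,1,1,2,2,0],[3,-1,-1,-1,-1,-1,0,0,-2],[0,0,0,0,0,1,1,1,0],[1,0,0,0,0,0,0,0,-1],[-1,1,
    1,1,1,1,1,2,0],[0,0,0,0,0,0,1,1,0],[3,-1,-1,-1,-1,-1,-1,0,-2],[-1,1,1,1,1,1,1,1,0],[0,0,0,0,0,
    0,0,1,0],[3,-1,-1,-1,-1,-1,-1,-1,-2]]
  R := [[0,1,2,4,6,8,11,15,19],[0,1,2,4,6,8,11,15,21],[0,1,2,4,6,8,11,16,19],[0,1,2,4,6,8,11,16,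
    20],[0,1,2,4,6,8,11,18,20],[0,1,2,4,6,8,11,18,21],[0,1,2,4,6,8,12,16,19],[0,1,2,4,6,8,12,16,
    20],[0,1,2,4,6,8,12,17,20],[0,1,2,4,6,8,13,17,20],[0,1,2,4,6,8,13,18,20],[0,1,2,4,6,8,13,18,
    21],[0,1,2,4,6,9,13,17,20],[0,1,2,4,6,9,13,18,20],[0,1,2,4,6,9,13,18,21],[0,1,2,4,6,9,14,17,
    20],[0,1,2,4,6,10,12,16,19],[0,1,2,4,6,10,12,16,20],[0,1,2,4,6,10,12,17,20],[0,1,2,4,6,10,14,
    17,20],[0,1,2,4,7,10,12,16,19],[0,1,2,4,7,10,12,16,20],[0,1,2,4,7,10,12,17,20],[0,1,2,4,7,10,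
    14,17,20],[0,1,2,5,7,10,12,16,19],[0,1,2,5,7,10,12,16,20],[0,1,2,5,7,10,12,17,20],[0,1,2,5,7,
    10,14,17,20],[0,1,3,5,7,10,12,16,19],[0,1,3,5,7,10,12,16,20],[0,1,3,5,7,10,12,17,20],[0,1,3,5,
    7,10,14,17,20]]
  T := [[0,0,0,0,0,0,2,1],[1,1,1,1,1,1,5,0],[2,2,2,2,2,6,0,3],[3,3,3,3,3,7,4,2],[4,4,4,4,4,10,3,
    5],[5,5,5,5,5,11,1,4],[6,6,6,6,16,2,6,7],[7,7,7,7,17,3,8,6],[8,8,8,8,18,9,7,8],[9,9,9,9,12,8,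
    10,9],[10,10,10,10,13,4,9,11],[11,11,11,11,14,5,11,10],[12,12,12,12,9,15,13,12],[13,13,13,13,
    10,13,12,14],[14,14,14,14,11,14,14,13],[15,15,15,15,19,12,15,15],[16,16,16,20,6,16,16,17],[17,
    17,17,21,7,17,18,16],[18,18,18,22,8,19,17,18],[19,19,19,23,15,18,19,19],[20,20,24,16,20,20,20,
    21],[21,21,25,17,21,21,22,20],[22,22,26,18,22,23,21,22],[23,23,27,19,23,22,23,23],[24,28,20,
    24,24,24,24,25],[25,29,21,25,25,25,26,24],[26,30,22,26,26,27,25,26],[27,31,23,27,27,26,27,27],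
    [28,24,28,28,28,28,28,29],[29,25,29,29,29,29,30,28],[30,26,30,30,30,31,29,30],[31,27,31,31,31,
    30,31,31]]
  W := [[0,1,2,3,4,5,0,0],[0,1,2,3,4,5,0,0],[0,1,2,3,4,0,0,0],[0,1,2,3,4,0,0,0],[0,1,2,3,4,0,0,0],
    [0,1,2,3,4,0,0,0],[0,1,2,3,0,0,5,0],[0,1,2,3,0,0,0,0],[0,1,2,3,0,0,0,5],[0,1,2,3,0,0,0,5],[0,
    1,2,3,0,0,0,0],[0,1,2,3,0,0,5,0],[0,1,2,7,0,0,0,5],[0,1,2,7,0,4,0,0],[0,1,2,7,0,4,5,0],[0,1,2,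
    7,0,0,4,5],[0,1,2,0,0,4,5,0],[0,1,2,0,0,4,0,0],[0,1,2,0,0,0,0,5],[0,1,2,0,0,0,4,5],[0,1,0,0,3,
    4,5,0],[0,1,0,0,3,4,0,0],[0,1,0,0,3,0,0,5],[0,1,0,0,7,0,4,5],[0,0,0,2,3,4,5,0],[0,0,0,2,3,4,0,
    0],[0,0,0,2,3,0,0,5],[0,0,0,2,7,0,4,5],[6,0,1,2,3,4,5,0],[6,0,1,2,3,4,0,0],[6,0,1,2,3,0,0,5],
    [6,0,1,2,7,0,4,5]]
  J := [[0,1,2,3,4,5,6,7],[1,2,3,4,5,7],[0,2,3,4,5,7],[1,2,3,4,5,6,7],[0,1,3,4,5,7],[0,2,3,4,5,6,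
    7],[0,1,2,4,5],[0,1,3,4,5,6,7],[0,1,2,3,5],[0,1,2,4,5,7],[0,1,2,4,5,6],[0,1,2,3,4],[0,1,2,3,5,
    6],[0,1,2,3,5,7],[0,1,2,4,5,6,7],[0,1,2,3,4,5],[0,1,2,3,4,6],[0,1,2,3,5,6,7],[0,1,2,3,4,7],[0,
    1,2,3,4,5,6],[0,1,2,3,4,6,7],[0,1,2,3,4,5,7]]
  H := [[5248,4702,901,706,7611,7260,1400,1205,8212,8212,8110,7759,8212,8110,7759,8212,6464,6269,
    3303,3303,4938,4743,1777,1777,5726,5531,2565,2565,5726,5531,2565,2565],[3233,5147,3556,5953,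
    8727,8244,5221,1203,221,9562,3345,9277,9562,3264,9196,7822,8856,4838,3937,1565,5047,1029,128,
    7729,9267,5249,4348,1976,1912,7867,6966,4594],[1933,3269,7218,4063,8629,3147,9469,8336,1638,
    5707,6998,9467,1622,3591,8603,9398,8150,4474,7071,8943,4909,1233,936,2808,9538,5862,5565,7437,
    5626,1950,1653,3525]]
  n := [0,1,2,2,3,4,4,6,5,5,8,6,10,10,10,7,12,20,27,14,54,126]
  P := [(0,1),(1,2),(1,3),(2,4),(2,5),(3,5),(4,6),(4,7),(5,7),(6,8),(6,9),(6,10),(7,10),(8,11),(8,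
    12),(8,13),(9,13),(9,14),(10,12),(10,14),(11,15),(11,16),(11,18),(12,16),(12,17),(13,17),(13,
    18),(14,17),(15,19),(15,21),(16,19),(16,20),(17,20),(18,20),(18,21),(19,22),(20,22),(21,22)]
  V := [1]

theorem tB_len : ∀ y ∈ tB.li, y.length = 8 + 1 := by decide +kernel

theorem att32 : Attained 32 8 := by
  have inv : ∀ i < 8, ∀ y ∈ tB.li, tB.has (sB i y) = true ∧ sB i (sB i y) = y := by decide +kernel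
  have : Nonempty {y // y ∈ tB.li} := ⟨⟨[1, 1, 0, 0, 0, 0, 0, 0, 1], tB.mem _ (by decide +kernel)⟩⟩
  refine (Dat.tab (D := dB) (K := 2) (σ := sB) [5, -3, -1, 1, 3, 5, 7, 9, -2] tB_len
    (fun i hi => ?_) (fun i hi y hy => ⟨tB.mem _ (inv i hi y hy).1, (inv i hi y hy).2⟩) (by omega)
    (by decide +kernel) (by decide +kernel) (by decide +kernel) (by decide +kernel)
    (by decide +kernel) (by decide +kernel)).att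
  unfold sB
  split_ifs
  exacts [li_ap tB_len _, li_gen tB_len (by omega) (fun _ _ _ => by omega) i hi]

end Pool.Agent.Lib.Q7.H77
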